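import Pool.Agent.Lib.MP_fa373d_co.SE.Defs

/-!
# Few elements have a close partner
-/

namespace Pool.Agent.Lib.MP_fa373d_co.SE

open Finset

set_option linter.unusedSectionVars false

/-- The tail of the binomial distribution. -/
theorem tail_le (t : ℕ) (ht : 0 < t) (σ : ℝ) (hσ : 0 ≤ σ) :
    ∑ d ∈ (Finset.range (t + 1)).filter (fun d : ℕ => 2 * (d : ℝ) ≤ t - σ), (t.choose d : ℝ) ≤
      2 ^ t * Real.exp (-(σ ^ 2 / (2 * t))) := by
  have ht' : (0 : ℝ) < t := by exact_mod_cast ht
  set l : ℝ := σ / t with hl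
  have hl0 : 0 ≤ l := by positivity
  have h1 : ∑ d ∈ Finset.range (t + 1), Real.exp (l * (t - 2 * d)) * (t.choose d : ℝ) =
      (Real.exp (-l) + Real.exp l) ^ t := by
    rw [add_pow]
    refine Finset.sum_congr rfl fun d hd => ?_
    have hd' : d ≤ t := Nat.lt_succ_iff.1 (Finset.mem_range.1 hd)
    congr 1
    rw [← Real.exp_nat_mul, ← Real.exp_nat_mul, ← Real.exp_add]
    congr 1
    push_cast [Nat.cast_sub hd']
    ring
  have h2 : (Real.exp (-l) + Real.exp l) ^ t ≤ 2 ^ t * Real.exp (t * (l ^ 2 / 2)) := by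
    have h3 : Real.exp (-l) + Real.exp l ≤ 2 * Real.exp (l ^ 2 / 2) := by
      have h4 := Real.cosh_le_exp_half_sq l
      rw [Real.cosh_eq] at h4
      linarith
    calc (Real.exp (-l) + Real.exp l) ^ t ≤ (2 * Real.exp (l ^ 2 / 2)) ^ t :=
          pow_le_pow_left₀ (by positivity) h3 t
      _ = _ := by rw [mul_pow, ← Real.exp_nat_mul]
  have h5 : Real.exp (l * σ) * ∑ d ∈ (Finset.range (t + 1)).filter
      (fun d : ℕ => 2 * (d : ℝ) ≤ t - σ), (t.choose d : ℝ) ≤
      ∑ d ∈ Finset.range (t + 1), Real.exp (l * (t - 2 * d)) * (t.choose d : ℝ) := by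
    rw [Finset.mul_sum]
    refine (Finset.sum_le_sum (f := fun d : ℕ => Real.exp (l * σ) * (t.choose d : ℝ))
      (g := fun d : ℕ => Real.exp (l * (t - 2 * d)) * (t.choose d : ℝ)) ?_).trans ?_
    · intro d hd
      rw [Finset.mem_filter] at hd
      refine mul_le_mul_of_nonneg_right ?_ (Nat.cast_nonneg _)
      rw [Real.exp_le_exp]
      exact mul_le_mul_of_nonneg_left (by linarith [hd.2]) hl0
    · exact Finset.sum_le_sum_of_subset_of_nonneg (Finset.filter_subset _ _)
        fun d _ _ => by positivity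
  have h6 := h5.trans (h1.le.trans h2)
  have h7 : Real.exp (t * (l ^ 2 / 2)) = Real.exp (l * σ) * Real.exp (-(σ ^ 2 / (2 * t))) := by
    rw [← Real.exp_add]
    congr 1
    rw [hl]
    field_simp
    ring
  rw [h7] at h6
  have h8 : Real.exp (l * σ) * ∑ d ∈ (Finset.range (t + 1)).filter
      (fun d : ℕ => 2 * (d : ℝ) ≤ t - σ), (t.choose d : ℝ) ≤
      Real.exp (l * σ) * (2 ^ t * Real.exp (-(σ ^ 2 / (2 * t)))) := by
    refine h6.trans (le_of_eq ?_)
    ring
  exact le_of_mul_le_mul_left h8 (Real.exp_pos _)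

variable {α ι : Type} [Fintype ι] [DecidableEq ι]

/-- Supersets of a given cardinality. -/
theorem card_supersets (D : Finset ι) (s : ℕ) (hs : D.card ≤ s) :
    (((Finset.univ : Finset ι).powersetCard s).filter (fun S => D ⊆ S)).card =
      (Fintype.card ι - D.card).choose (s - D.card) := by
  rw [← Finset.card_compl, ← Finset.card_powersetCard]
  refine Finset.card_bij (fun S _ => S \ D) ?_ ?_ ?_
  · intro S hS
    rw [Finset.mem_filter, Finset.mem_powersetCard] at hS
    rw [Finset.mem_powersetCard]
    refine ⟨?_, ?_⟩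
    · intro i hi
      rw [Finset.mem_compl]
      exact (Finset.mem_sdiff.1 hi).2
    · rw [Finset.card_sdiff_of_subset hS.2, hS.1.2]
  · intro S hS S' hS' h
    rw [Finset.mem_filter] at hS hS'
    have h1 := Finset.sdiff_union_of_subset hS.2
    have h2 := Finset.sdiff_union_of_subset hS'.2
    change S \ D = S' \ D at h
    rw [← h1, ← h2, h]
  · intro A hA
    rw [Finset.mem_powersetCard] at hA
    have hdis : Disjoint A D := by
      rw [Finset.disjoint_left]
      intro i hi hi'
      exact (Finset.mem_compl.1 (hA.1 hi)) hi'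
    refine ⟨A ∪ D, ?_, ?_⟩
    · rw [Finset.mem_filter, Finset.mem_powersetCard]
      refine ⟨⟨Finset.subset_univ _, ?_⟩, Finset.subset_union_right⟩
      rw [Finset.card_union_of_disjoint hdis, hA.2]
      omega
    · rw [Finset.union_sdiff_right]
      exact Finset.sdiff_eq_self_of_disjoint hdis

/-- The elements isolated by a set of cardinality `d`. -/
theorem own_le {v : α → ι → Bool} {P B : Finset α} (hB : B ⊆ P) (d : ℕ)
    (hd : 2 * d ≤ Fintype.card ι) (D : α → Finset ι) (hD : ∀ x ∈ B, (D x).card = d ∧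
      Iso v P x (D x)) : B.card ≤ (Fintype.card ι + 1) * (Fintype.card ι).choose d := by
  classical
  set t := Fintype.card ι with ht
  have h1 : B.card * (t - d).choose d ≤ t.choose (2 * d) * 4 ^ d := by
    calc B.card * (t - d).choose d
        = ∑ x ∈ B, (((Finset.univ : Finset ι).powersetCard (2 * d)).filter
            (fun S => D x ⊆ S)).card := by
          rw [← smul_eq_mul, ← Finset.sum_const]
          refine Finset.sum_congr rfl fun x hx => ?_
          rw [card_supersets (D x) (2 * d) (by rw [(hD x hx).1]; omega), (hD x hx).1,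
            show 2 * d - d = d by omega]
      _ = ∑ S ∈ (Finset.univ : Finset ι).powersetCard (2 * d), (B.filter (fun x =>
            D x ⊆ S)).card := by
          simp only [Finset.card_filter]
          exact Finset.sum_comm
      _ ≤ ∑ S ∈ (Finset.univ : Finset ι).powersetCard (2 * d), 4 ^ d := by
          refine Finset.sum_le_sum fun S hS => ?_
          have hSc : S.card = 2 * d := (Finset.mem_powersetCard.1 hS).2
          have h2 : (B.filter fun x => D x ⊆ S).card ≤
              (Finset.univ : Finset (S → Bool)).card := by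
            refine Finset.card_le_card_of_injOn (fun x => fun i : S => v x i)
              (fun _ _ => Finset.mem_univ _) ?_
            intro x hx y hy hxy
            rw [Finset.mem_coe, Finset.mem_filter] at hx hy
            refine ((hD x hx.1).2 y (hB hy.1) fun i hi => ?_).symm
            exact (congrFun hxy ⟨i, hx.2 hi⟩).symm
          refine h2.trans ?_
          rw [Finset.card_univ, Fintype.card_fun, Fintype.card_bool, Fintype.card_coe, hSc,
            pow_mul]
          norm_num
      _ = _ := by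
          rw [Finset.sum_const, Finset.card_powersetCard, Finset.card_univ, smul_eq_mul]
  have h2 := Nat.choose_mul (n := t) (k := 2 * d) (s := d) (by omega)
  rw [show 2 * d - d = d by omega] at h2
  have h3 : 0 < (t - d).choose d := Nat.choose_pos (by omega)
  have h4 : B.card * (2 * d).choose d ≤ 4 ^ d * t.choose d := by
    refine Nat.le_of_mul_le_mul_right ?_ h3
    calc B.card * (2 * d).choose d * (t - d).choose d
        = (B.card * (t - d).choose d) * (2 * d).choose d := by ring
      _ ≤ (t.choose (2 * d) * 4 ^ d) * (2 * d).choose d := Nat.mul_le_mul_right _ h1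
      _ = 4 ^ d * (t.choose (2 * d) * (2 * d).choose d) := by ring
      _ = 4 ^ d * (t.choose d * (t - d).choose d) := by rw [h2]
      _ = _ := by ring
  have h5 : 4 ^ d ≤ (t + 1) * (2 * d).choose d := by
    rcases Nat.eq_zero_or_pos d with h0 | h0
    · subst h0
      simp
    · have h6 := Nat.four_pow_le_two_mul_self_mul_centralBinom d h0
      rw [Nat.centralBinom] at h6
      exact h6.trans (Nat.mul_le_mul_right _ (by omega))
  have h7 : 0 < (2 * d).choose d := Nat.choose_pos (by omega)
  refine Nat.le_of_mul_le_mul_right ?_ h7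
  calc B.card * (2 * d).choose d ≤ 4 ^ d * t.choose d := h4
    _ ≤ ((t + 1) * (2 * d).choose d) * t.choose d := Nat.mul_le_mul_right _ h5
    _ = _ := by ring

/-- The elements isolated by small sets. -/
theorem bad_le {v : α → ι → Bool} {P B : Finset α} {σ : ℝ} (hσ : 0 ≤ σ)
    (ht : 0 < Fintype.card ι) (hB : B ⊆ P)
    (hD : ∀ x ∈ B, ∃ D : Finset ι, Iso v P x D ∧ 2 * (D.card : ℝ) ≤ Fintype.card ι - σ) :
    (B.card : ℝ) ≤ (Fintype.card ι + 1) * (2 ^ Fintype.card ι *
      Real.exp (-(σ ^ 2 / (2 * Fintype.card ι)))) := by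
  classical
  set t := Fintype.card ι with ht'
  have hD' : ∀ x : α, ∃ D : Finset ι, x ∈ B → Iso v P x D ∧ 2 * (D.card : ℝ) ≤ t - σ := by
    intro x
    by_cases hx : x ∈ B
    · obtain ⟨D, h⟩ := hD x hx
      exact ⟨D, fun _ => h⟩
    · exact ⟨∅, fun h => absurd h hx⟩
  choose D hD using hD'
  have h1 : B = ((Finset.range (t + 1)).filter (fun d : ℕ => 2 * (d : ℝ) ≤ t - σ)).biUnion
      (fun d => B.filter (fun x => (D x).card = d)) := by
    ext x
    simp only [Finset.mem_biUnion, Finset.mem_filter, Finset.mem_range]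
    constructor
    · intro hx
      refine ⟨(D x).card, ⟨?_, (hD x hx).2⟩, hx, rfl⟩
      exact Nat.lt_succ_of_le (Finset.card_le_univ _)
    · rintro ⟨_, _, hx, _⟩
      exact hx
  have h2 : B.card ≤ ∑ d ∈ (Finset.range (t + 1)).filter (fun d : ℕ => 2 * (d : ℝ) ≤ t - σ),
      (t + 1) * t.choose d := by
    conv_lhs => rw [h1]
    refine Finset.card_biUnion_le.trans (Finset.sum_le_sum fun d hd => ?_)
    rw [Finset.mem_filter] at hd
    have h3 : 2 * d ≤ t := by
      have : (2 : ℝ) * d ≤ t := by linarith [hd.2]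
      exact_mod_cast this
    refine own_le (v := v) ((Finset.filter_subset _ _).trans hB) d h3 D ?_
    intro x hx
    rw [Finset.mem_filter] at hx
    exact ⟨hx.2, (hD x hx.1).1⟩
  calc (B.card : ℝ) ≤ ((∑ d ∈ (Finset.range (t + 1)).filter
        (fun d : ℕ => 2 * (d : ℝ) ≤ t - σ), (t + 1) * t.choose d : ℕ) : ℝ) := by exact_mod_cast h2
    _ = (t + 1) * ∑ d ∈ (Finset.range (t + 1)).filter (fun d : ℕ => 2 * (d : ℝ) ≤ t - σ),
        (t.choose d : ℝ) := by
        push_cast
        rw [Finset.mul_sum]
    _ ≤ _ := mul_le_mul_of_nonneg_left (tail_le t ht σ hσ) (by positivity)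

end Pool.Agent.Lib.MP_fa373d_co.SE
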