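import Mathlib

/-!
# Focal-free families of size three: definitions for the stretched exponential bound
-/

namespace Pool.Agent.Lib.MP_fa373d_co.SE

open Finset

variable {α ι : Type}

/-- The sign of a bit. -/
def sg (b : Bool) : ℝ := cond b 1 (-1)

/-- The inner product of the sign vectors of `x` and `y`. -/
noncomputable def ip [Fintype ι] (v : α → ι → Bool) (x y : α) : ℝ :=
  ∑ i, sg (v x i) * sg (v y i)

/-- `M` isolates `x` in `V`: no other element of `V` agrees with `x` on `M`. -/
def Iso (v : α → ι → Bool) (V : Finset α) (x : α) (M : Finset ι) : Prop :=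
  ∀ y ∈ V, (∀ i ∈ M, v y i = v x i) → y = x

/-- The sets of cardinality `j` that isolate `x` in `V`. -/
noncomputable def IS [Fintype ι] (v : α → ι → Bool) (V : Finset α) (x : α) (j : ℕ) :
    Finset (Finset ι) := by
  classical
  exact ((Finset.univ : Finset ι).powersetCard j).filter (fun M => Iso v V x M)

/-- The number of sets of cardinality `j` that isolate `x` in `V`. -/
noncomputable def NI [Fintype ι] (v : α → ι → Bool) (V : Finset α) (x : α) (j : ℕ) : ℕ :=
  (IS v V x j).card

/-- The character sum. -/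
noncomputable def bs (v : α → ι → Bool) (V : Finset α) (u : Finset ι) : ℝ :=
  ∑ y ∈ V, ∏ i ∈ u, sg (v y i)

/-- The inner products of distinct elements of `V` are at most `σ`. -/
def Sp [Fintype ι] (v : α → ι → Bool) (V : Finset α) (σ : ℝ) : Prop :=
  ∀ x ∈ V, ∀ y ∈ V, x ≠ y → ip v x y ≤ σ

theorem sg_sq (b : Bool) : sg b * sg b = 1 := by
  cases b <;> simp [sg]

theorem sg_abs (b : Bool) : |sg b| = 1 := by
  cases b <;> simp [sg]

theorem sg_mul_eq (a b : Bool) : sg a * sg b = if a = b then 1 else -1 := by
  cases a <;> cases b <;> simp [sg]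

theorem ip_self [Fintype ι] (v : α → ι → Bool) (x : α) : ip v x x = Fintype.card ι := by
  unfold ip
  simp [sg_sq]

theorem ip_comm [Fintype ι] (v : α → ι → Bool) (x y : α) : ip v x y = ip v y x := by
  unfold ip
  exact Finset.sum_congr rfl fun i _ => mul_comm _ _

theorem ip_le [Fintype ι] (v : α → ι → Bool) (x y : α) : |ip v x y| ≤ Fintype.card ι := by
  unfold ip
  refine (Finset.abs_sum_le_sum_abs _ _).trans ?_
  simp [abs_mul, sg_abs]

theorem Sp.mono [Fintype ι] {v : α → ι → Bool} {V W : Finset α} {σ : ℝ} (h : Sp v V σ)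
    (hW : W ⊆ V) : Sp v W σ :=
  fun x hx y hy hxy => h x (hW hx) y (hW hy) hxy

end Pool.Agent.Lib.MP_fa373d_co.SE
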