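import Pool.Agent.Lib.MP_fa373d_co.SE.Static
import Pool.Agent.Lib.MP_fa373d_co.Potential

/-!
# From focal-free families to the static bound
-/

namespace Pool.Agent.Lib.MP_fa373d_co.SE

open Finset

set_option linter.unusedSectionVars false

/-- Families without two petals: the difference sets of two further members meet. -/
theorem meet_of_FF {ι : Type} [Fintype ι] [DecidableEq ι] {F : Finset (ι → Bool)} (hF : FF 2 F)
    {x y z : ι → Bool} (hx : x ∈ F) (hy : y ∈ F) (hz : z ∈ F) (hxy : x ≠ y) (hxz : x ≠ z) :
    ∃ i, x i ≠ y i ∧ x i ≠ z i := by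
  classical
  by_cases hyz : y = z
  · subst hyz
    obtain ⟨i, hi⟩ := Function.ne_iff.1 hxy
    exact ⟨i, hi, hi⟩
  · by_contra hcon
    push Not at hcon
    refine hF x hx {y, z} ?_ ?_ (Finset.card_pair hyz) ?_
    · intro w hw
      rw [Finset.mem_insert, Finset.mem_singleton] at hw
      rcases hw with rfl | rfl
      · exact hy
      · exact hz
    · rw [Finset.mem_insert, Finset.mem_singleton, not_or]
      exact ⟨hxy, hxz⟩
    · intro a ha b hb hab i
      rw [Finset.mem_insert, Finset.mem_singleton] at ha hb
      rcases ha with rfl | rfl <;> rcases hb with rfl | rfl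
      · exact absurd rfl hab
      · by_cases h : x i = a i
        · exact Or.inl h.symm
        · exact Or.inr (hcon i h).symm
      · by_cases h : x i = b i
        · exact Or.inr h.symm
        · exact Or.inl (hcon i h).symm
      · exact absurd rfl hab

/-- The members in large fibres. -/
theorem fibre {t m : ℕ} {F : Finset (Fin (t + m) → Bool)} (hF : FF 2 F) {G : ℝ}
    (hG0 : 0 ≤ G) (hG : 2 * G * 2 ^ m ≤ F.card) :
    ∃ P ⊆ F, (F.card : ℝ) ≤ 2 * P.card ∧
      (∀ x ∈ P, G ≤ ((P.filter (fun y => (fun j : Fin m => y (Fin.natAdd t j)) =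
        fun j : Fin m => x (Fin.natAdd t j))).card : ℝ)) ∧
      ∀ x ∈ P, ∀ x' ∈ P, ∀ y ∈ P, (fun j : Fin m => x (Fin.natAdd t j)) =
        (fun j : Fin m => x' (Fin.natAdd t j)) → x ≠ x' → x ≠ y →
        ∃ i : Fin t, x (Fin.castAdd m i) ≠ x' (Fin.castAdd m i) ∧
          x (Fin.castAdd m i) ≠ y (Fin.castAdd m i) := by
  classical
  let g : (Fin (t + m) → Bool) → (Fin m → Bool) := fun x j => x (Fin.natAdd t j)
  let P : Finset (Fin (t + m) → Bool) :=
    F.filter (fun x => G ≤ ((F.filter (fun y => g y = g x)).card : ℝ))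
  refine ⟨P, Finset.filter_subset _ _, ?_, ?_, ?_⟩
  · have h1 : ((F \ P).card : ℝ) ≤ 2 ^ m * G := by
      have h2 : (F \ P).card = ∑ w : Fin m → Bool, ((F \ P).filter (fun x => g x = w)).card :=
        Finset.card_eq_sum_card_fiberwise (fun x _ => Finset.mem_coe.2 (Finset.mem_univ _))
      have h3 : ∀ w : Fin m → Bool, (((F \ P).filter (fun x => g x = w)).card : ℝ) ≤ G := by
        intro w
        rcases Finset.eq_empty_or_nonempty ((F \ P).filter (fun x => g x = w)) with h | ⟨x, hx⟩
        · rw [h, Finset.card_empty, Nat.cast_zero]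
          exact hG0
        · rw [Finset.mem_filter, Finset.mem_sdiff] at hx
          have h4 : ((F.filter (fun y => g y = g x)).card : ℝ) < G := by
            by_contra hcon
            push Not at hcon
            exact hx.1.2 (Finset.mem_filter.2 ⟨hx.1.1, hcon⟩)
          have h5 : ((F \ P).filter (fun x => g x = w)).card ≤
              (F.filter (fun y => g y = g x)).card := by
            refine Finset.card_le_card fun y hy => ?_
            rw [Finset.mem_filter, Finset.mem_sdiff] at hy
            exact Finset.mem_filter.2 ⟨hy.1.1, hy.2.trans hx.2.symm⟩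
          have h6 : (((F \ P).filter (fun x => g x = w)).card : ℝ) ≤
              ((F.filter (fun y => g y = g x)).card : ℝ) := by exact_mod_cast h5
          linarith
      rw [h2]
      push_cast
      refine (Finset.sum_le_sum fun w _ => h3 w).trans ?_
      rw [Finset.sum_const, Finset.card_univ, Fintype.card_fun, Fintype.card_bool,
        Fintype.card_fin, nsmul_eq_mul]
      push_cast
      exact le_rfl
    have h2 : F.card = P.card + (F \ P).card :=
      (Nat.add_sub_cancel' (Finset.card_le_card (Finset.filter_subset _ _))).symm.trans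
        (congrArg (P.card + ·) (Finset.card_sdiff_of_subset (Finset.filter_subset _ _)).symm)
    have h3 : (F.card : ℝ) = P.card + (F \ P).card := by exact_mod_cast h2
    linarith
  · intro x hx
    have h1 : G ≤ ((F.filter (fun y => g y = g x)).card : ℝ) := (Finset.mem_filter.1 hx).2
    have h2 : F.filter (fun y => g y = g x) ⊆ P.filter (fun y => g y = g x) := by
      intro y hy
      rw [Finset.mem_filter] at hy
      refine Finset.mem_filter.2 ⟨Finset.mem_filter.2 ⟨hy.1, ?_⟩, hy.2⟩
      rw [hy.2]
      exact h1
    have h3 : ((F.filter (fun y => g y = g x)).card : ℝ) ≤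
        ((P.filter (fun y => g y = g x)).card : ℝ) := by
      exact_mod_cast Finset.card_le_card h2
    exact h1.trans h3
  · intro x hx x' hx' y hy hg hne hne'
    obtain ⟨i, hi1, hi2⟩ := meet_of_FF hF (Finset.mem_filter.1 hx).1 (Finset.mem_filter.1 hx').1
      (Finset.mem_filter.1 hy).1 hne hne'
    refine Fin.addCases (motive := fun i => x i ≠ x' i → x i ≠ y i →
      ∃ i : Fin t, x (Fin.castAdd m i) ≠ x' (Fin.castAdd m i) ∧
          x (Fin.castAdd m i) ≠ y (Fin.castAdd m i)) ?_ ?_ i hi1 hi2
    · intro i h1 h2
      exact ⟨i, h1, h2⟩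
    · intro j h1 _
      exact absurd (congrFun hg j) h1

end Pool.Agent.Lib.MP_fa373d_co.SE
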