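import Pool.Agent.Lib.MP_fa373d_co.SE.Fibre

/-!
# The stretched exponential bound
-/

namespace Pool.Agent.Lib.MP_fa373d_co.SE

open Finset

set_option linter.unusedSectionVars false

private theorem fi_two_pow (q : ℕ) (hq : 10 ≤ q) : 76 * q + 199 ≤ 2 ^ q := by
  induction q, hq using Nat.le_induction with
  | base => norm_num
  | succ q hq ih =>
    rw [pow_succ]
    omega

private theorem fi_root {a c d : ℕ} (h : a ^ 2 * d < c ^ 2 * d) : a ≤ c := by
  have h2 : a ^ 2 < c ^ 2 := lt_of_mul_lt_mul_right h (Nat.zero_le _)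
  exact (lt_of_pow_lt_pow_left₀ 2 (Nat.zero_le _) h2).le

/-- The binomial coefficient. -/
private theorem fi_choose (t q : ℕ) (ht : 2 ^ (40 * q - 1) ≤ t) (hq : 1 ≤ q) :
    2 ^ ((39 * q - 2) * 2 ^ q) ≤ t.choose (2 ^ q) := by
  set ρ := 2 ^ q with hρ
  have h1 : ((t + 1 - ρ) ^ ρ) ≤ ρ.factorial * t.choose ρ := by
    have h3 := Nat.pow_sub_le_descFactorial t ρ
    rw [Nat.descFactorial_eq_factorial_mul_choose] at h3
    exact h3
  have h4 : ρ.factorial ≤ ρ ^ ρ := Nat.factorial_le_pow ρ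
  have h5 : 2 ^ (40 * q - 2) ≤ t + 1 - ρ := by
    have h6 : 2 ^ (40 * q - 1) = 2 * 2 ^ (40 * q - 2) := by
      rw [← pow_succ']
      congr 1
      omega
    have h7 : 2 ^ q ≤ 2 ^ (40 * q - 2) := Nat.pow_le_pow_right (by norm_num) (by omega)
    omega
  have h6 : 2 ^ ((39 * q - 2) * ρ) * ρ ^ ρ ≤ t.choose ρ * ρ ^ ρ := by
    calc 2 ^ ((39 * q - 2) * ρ) * ρ ^ ρ = (2 ^ (40 * q - 2)) ^ ρ := by
          rw [pow_mul, ← mul_pow]
          congr 1
          rw [hρ, ← pow_add]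
          congr 1
          omega
      _ ≤ (t + 1 - ρ) ^ ρ := Nat.pow_le_pow_left h5 ρ
      _ ≤ ρ.factorial * t.choose ρ := h1
      _ ≤ ρ ^ ρ * t.choose ρ := Nat.mul_le_mul_right _ h4
      _ = _ := mul_comm _ _
  exact Nat.le_of_mul_le_mul_right h6 (by positivity)

/-- The parameters. -/
private theorem fi_par (q t : ℕ) (hq : 60 ≤ q) (ht : 2 ^ (40 * q - 1) ≤ t) :
    ∃ σ κ b : ℝ, 0 ≤ σ ∧ σ ≤ κ ∧ σ * t ≤ κ ^ 2 ∧ 0 < b ∧
      32 * ((2 * 2 ^ q : ℕ) : ℝ) ^ 2 * κ ≤ b ^ 6 ∧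
      8 * ((2 * 2 ^ q : ℕ) : ℝ) * b ^ (6 + 1) ≤ t ∧ (2 : ℝ) ^ (2 * q) ≤ σ ^ 2 / (2 * t) := by
  set J : ℝ := ((2 * 2 ^ q : ℕ) : ℝ) with hJ
  have hJ2 : J = 2 ^ (q + 1) := by
    rw [hJ]
    push_cast
    rw [pow_succ]
    ring
  have hJ0 : 0 < J := by rw [hJ2]; positivity
  have ht1 : (2 : ℝ) ^ (40 * q - 1) ≤ t := by exact_mod_cast ht
  have ht0 : (0 : ℝ) < t := lt_of_lt_of_le (by positivity) ht1
  set b : ℝ := ((t : ℝ) / (8 * J)) ^ (((7 : ℕ) : ℝ)⁻¹) with hb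
  have hb7 : b ^ 7 = t / (8 * J) := Real.rpow_inv_natCast_pow (by positivity) (by norm_num)
  have hb0 : 0 < b := Real.rpow_pos_of_pos (by positivity) _
  have hb7' : (2 : ℝ) ^ (39 * q - 5) ≤ b ^ 7 := by
    rw [hb7, le_div_iff₀ (by positivity), hJ2]
    calc (2 : ℝ) ^ (39 * q - 5) * (8 * 2 ^ (q + 1)) = 2 ^ (40 * q - 1) := by
          rw [show (8 : ℝ) = 2 ^ 3 by norm_num, ← pow_add, ← pow_add]
          congr 1
          omega
      _ ≤ t := ht1
  have hb1 : 1 ≤ b := by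
    by_contra hcon
    push Not at hcon
    have h1 : b ^ 7 ≤ 1 := pow_le_one₀ hb0.le hcon.le
    have h2 : (2 : ℝ) ^ 1 ≤ 2 ^ (39 * q - 5) := pow_le_pow_right₀ (by norm_num) (by omega)
    linarith
  have hb3 : (2 : ℝ) ^ (13 * q + 41) ≤ b ^ 3 := by
    have h1 : ((2 : ℝ) ^ (13 * q + 41)) ^ 7 ≤ (b ^ 3) ^ 7 := by
      calc ((2 : ℝ) ^ (13 * q + 41)) ^ 7 = 2 ^ ((13 * q + 41) * 7) := by rw [← pow_mul]
        _ ≤ 2 ^ ((39 * q - 5) * 3) := pow_le_pow_right₀ (by norm_num) (by omega)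
        _ = (2 ^ (39 * q - 5)) ^ 3 := by rw [← pow_mul]
        _ ≤ (b ^ 7) ^ 3 := pow_le_pow_left₀ (by positivity) hb7' 3
        _ = _ := by ring
    exact (pow_le_pow_iff_left₀ (by positivity) (by positivity) (by norm_num)).1 h1
  set κ : ℝ := b ^ 6 / (32 * J ^ 2) with hκ
  have hκ0 : 0 < κ := by positivity
  have hκt : κ ≤ t := by
    have h1 : κ ≤ b ^ 6 := by
      rw [hκ, div_le_iff₀ (by positivity)]
      have h2 : (1 : ℝ) ≤ 32 * J ^ 2 := by
        have h3 : (1 : ℝ) ≤ J := by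
          rw [hJ2]
          exact one_le_pow₀ (by norm_num)
        nlinarith
      nlinarith [pow_pos hb0 6]
    have h2 : b ^ 6 ≤ b ^ 7 := pow_le_pow_right₀ hb1 (by norm_num)
    have h3 : b ^ 7 ≤ t := by
      rw [hb7, div_le_iff₀ (by positivity)]
      have h4 : (1 : ℝ) ≤ 8 * J := by
        have h3 : (1 : ℝ) ≤ J := by
          rw [hJ2]
          exact one_le_pow₀ (by norm_num)
        linarith
      nlinarith
    linarith
  refine ⟨κ ^ 2 / t, κ, b, by positivity, ?_, ?_, hb0, ?_, ?_, ?_⟩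
  · rw [div_le_iff₀ ht0]
    nlinarith
  · rw [div_mul_cancel₀ _ ht0.ne']
  · rw [hκ]
    have : 32 * J ^ 2 * (b ^ 6 / (32 * J ^ 2)) = b ^ 6 := by
      field_simp
    exact this.le
  · have : 8 * J * b ^ (6 + 1) = t := by
      change 8 * J * b ^ 7 = t
      rw [hb7]
      field_simp
    exact this.le
  · have h1 : (κ ^ 2 / t) ^ 2 / (2 * t) = b ^ 3 / (2 ^ 30 * J ^ 11) := by
      have h2 : κ ^ 4 = (b ^ 7) ^ 3 * b ^ 3 / (2 ^ 20 * J ^ 8) := by
        rw [hκ]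
        field_simp
        ring
      calc (κ ^ 2 / t) ^ 2 / (2 * t) = κ ^ 4 / (2 * t ^ 3) := by
            field_simp
        _ = _ := by
            rw [h2, hb7]
            field_simp
            ring
    rw [h1, le_div_iff₀ (by positivity), hJ2]
    calc (2 : ℝ) ^ (2 * q) * (2 ^ 30 * (2 ^ (q + 1)) ^ 11) = 2 ^ (13 * q + 41) := by
          rw [← pow_mul, ← pow_add, ← pow_add]
          congr 1
          ring
      _ ≤ b ^ 3 := hb3

/-- The bound in the range `2^(40 q) ≤ n < 2^(40 (q + 1))`. -/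
theorem core (q n : ℕ) (hq : 60 ≤ q) (hn1 : 2 ^ (40 * q) ≤ n) (hn2 : n < 2 ^ (40 * (q + 1)))
    (F : Finset (Fin n → Bool)) (hF : FF 2 F) : F.card ^ 2 * 2 ^ (4 * 2 ^ q) ≤ 2 ^ n := by
  classical
  obtain ⟨R, hR⟩ : ∃ R, R = 2 ^ q := ⟨_, rfl⟩
  obtain ⟨w, hw⟩ : ∃ w, w = 4 * R := ⟨_, rfl⟩
  obtain ⟨f, hf⟩ : ∃ f, f = (6 * q + 24) * R := ⟨_, rfl⟩
  obtain ⟨N, hN⟩ : ∃ N, N = 6 * f + 2 * R + 3 := ⟨_, rfl⟩
  have hR1 : 1 ≤ R := by rw [hR]; exact Nat.one_le_two_pow
  have hqR := fi_two_pow q (by omega)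
  rw [← hR] at hqR
  have hf2 : f = 6 * (q * R) + 24 * R := by rw [hf]; ring
  have hRR : (76 * q + 199) * R ≤ R * R := Nat.mul_le_mul_right _ hqR
  have hRR2 : (76 * q + 199) * R = 76 * (q * R) + 199 * R := by ring
  have hqR2 : 60 * R ≤ q * R := Nat.mul_le_mul_right _ hq
  have hRn : 2 * (R * R) ≤ n := by
    refine le_trans ?_ hn1
    rw [hR, ← pow_add, ← pow_succ']
    exact Nat.pow_le_pow_right (by norm_num) (by omega)
  rw [show 4 * 2 ^ q = w by rw [hw, hR]]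
  obtain ⟨t, ht1, ht2, htn⟩ : ∃ t, n + w + 2 * N + 2 ≤ 2 * t ∧ 2 * t ≤ n + w + 2 * N + 3 ∧
      t ≤ n := ⟨(n + w + 1) / 2 + N + 1, by omega, by omega, by omega⟩
  have htq : 2 ^ (40 * q - 1) ≤ t := by
    have h1 : 2 ^ (40 * q) = 2 * 2 ^ (40 * q - 1) := by
      rw [← pow_succ']
      congr 1
      omega
    omega
  obtain ⟨m, rfl⟩ := Nat.exists_eq_add_of_le htn
  by_contra hcon
  push Not at hcon
  obtain ⟨E, hE⟩ : ∃ E, t = E + (w + N + 3) := ⟨t - (w + N + 3), by omega⟩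
  -- the family is large
  have hF1 : 2 * 2 ^ N * 2 ^ m ≤ F.card := by
    have h1 : (2 * 2 ^ N * 2 ^ m) ^ 2 * 2 ^ w < F.card ^ 2 * 2 ^ w := by
      refine lt_of_le_of_lt ?_ hcon
      calc (2 * 2 ^ N * 2 ^ m) ^ 2 * 2 ^ w = 2 ^ (2 * N + 2 + 2 * m + w) := by
            rw [show 2 * 2 ^ N * 2 ^ m = 2 ^ (1 + N + m) by rw [pow_add, pow_add, pow_one],
              ← pow_mul, ← pow_add]
            congr 1
            ring
        _ ≤ 2 ^ (t + m) := Nat.pow_le_pow_right (by norm_num) (by omega)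
    exact fi_root h1
  have hF2 : 2 ^ (E + 1) ≤ F.card := by
    have h1 : (2 ^ (E + 1)) ^ 2 * 2 ^ (w + (w + 2 * N + 3)) < F.card ^ 2 * 2 ^ (w + (w + 2 * N + 3)) := by
      calc (2 ^ (E + 1)) ^ 2 * 2 ^ (w + (w + 2 * N + 3)) = 2 ^ (2 * E + 2 * w + 2 * N + 5) := by
            rw [← pow_mul, ← pow_add]
            congr 1
            ring
        _ ≤ 2 ^ (t + m) * 2 ^ (w + 2 * N + 3) := by
            rw [← pow_add]
            exact Nat.pow_le_pow_right (by norm_num) (by omega)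
        _ < (F.card ^ 2 * 2 ^ w) * 2 ^ (w + 2 * N + 3) :=
            Nat.mul_lt_mul_of_pos_right hcon (by positivity)
        _ = _ := by rw [pow_add 2 w, mul_assoc]
    exact fi_root h1
  obtain ⟨P, _, hP1, hP2, hP3⟩ := fibre hF (G := (2 : ℝ) ^ N) (by positivity)
    (by exact_mod_cast hF1)
  have hPE : (2 : ℝ) ^ E ≤ P.card := by
    have h1 : ((2 ^ (E + 1) : ℕ) : ℝ) ≤ F.card := by exact_mod_cast hF2
    push_cast at h1
    rw [pow_succ] at h1
    linarith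
  obtain ⟨σ, κ, b, hσ, hσκ, hκ2, hb, hb1, hb2, hQ⟩ := fi_par q t hq htq
  rw [← hR] at hb1 hb2
  have hcard : Fintype.card (Fin t) = t := Fintype.card_fin t
  -- the tail
  have hbad : ((t : ℝ) + 1) * (2 ^ t * Real.exp (-(σ ^ 2 / (2 * t)))) ≤ (P.card : ℝ) / 8 := by
    have h1 : ((w + N + 6 + 40 * (q + 1) : ℕ) : ℝ) ≤ σ ^ 2 / (2 * t) := by
      refine le_trans ?_ hQ
      have h2 : w + N + 6 + 40 * (q + 1) ≤ 2 ^ (2 * q) := by
        rw [show 2 ^ (2 * q) = R * R by rw [hR, ← pow_add]; congr 1; ring]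
        omega
      exact_mod_cast h2
    have h2 : Real.exp (-(σ ^ 2 / (2 * t))) ≤ (1 / 2) ^ (w + N + 6 + 40 * (q + 1)) := by
      calc Real.exp (-(σ ^ 2 / (2 * t))) ≤ Real.exp (-((w + N + 6 + 40 * (q + 1) : ℕ) : ℝ)) :=
            Real.exp_le_exp.2 (by linarith)
        _ = Real.exp (-1) ^ (w + N + 6 + 40 * (q + 1)) := by
            rw [← Real.exp_nat_mul]
            congr 1
            ring
        _ ≤ _ := by
            refine pow_le_pow_left₀ (Real.exp_pos _).le ?_ _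
            rw [Real.exp_neg, one_div]
            refine inv_anti₀ (by norm_num) ?_
            have := Real.add_one_le_exp (1 : ℝ)
            linarith
    have h3 : (t : ℝ) + 1 ≤ 2 ^ (40 * (q + 1)) := by
      have : t + 1 ≤ 2 ^ (40 * (q + 1)) := by omega
      exact_mod_cast this
    calc ((t : ℝ) + 1) * (2 ^ t * Real.exp (-(σ ^ 2 / (2 * t))))
        ≤ 2 ^ (40 * (q + 1)) * (2 ^ t * (1 / 2) ^ (w + N + 6 + 40 * (q + 1))) := by
          refine mul_le_mul h3 ?_ (by positivity) (by positivity)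
          exact mul_le_mul_of_nonneg_left h2 (by positivity)
      _ = 2 ^ E / 8 := by
          rw [hE, pow_add (1 / 2 : ℝ), pow_add (1 / 2 : ℝ) (w + N) 6, pow_add (2 : ℝ) E,
            pow_add (2 : ℝ) (w + N) 3, one_div, inv_pow, inv_pow, inv_pow]
          field_simp
          norm_num
      _ ≤ _ := by linarith
  have hsph : 4 * 2 ^ t ≤ P.card * t.choose R := by
    have h1 := fi_choose t q htq (by omega)
    rw [← hR] at h1
    have h2 : 2 ^ E ≤ P.card := by exact_mod_cast hPE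
    calc 4 * 2 ^ t = 2 ^ (t + 2) := by rw [pow_add]; ring
      _ ≤ 2 ^ (E + (39 * q - 2) * R) := by
          refine Nat.pow_le_pow_right (by norm_num) ?_
          have h3 : (39 * q - 2) * R = 39 * (q * R) - 2 * R := by
            rw [Nat.sub_mul]
            congr 1
            ring
          rw [h3]
          omega
      _ = 2 ^ E * 2 ^ ((39 * q - 2) * R) := pow_add _ _ _
      _ ≤ _ := Nat.mul_le_mul h2 h1
  have hst := static (ι := Fin t) (γ := Fin m → Bool) (a := 6) (ρ := R) (P := P)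
    (v := fun (x : Fin (t + m) → Bool) (i : Fin t) => x (Fin.castAdd m i))
    (grp := fun (x : Fin (t + m) → Bool) (j : Fin m) => x (Fin.natAdd t j))
    (σ := σ) (κ := κ) (b := b) (G := (2 : ℝ) ^ N) (φ := (2 : ℝ) ^ f)
    (by norm_num) hR1 (by rw [hcard]; omega) hσ hσκ (by rw [hcard]; exact hκ2) hb hb1
    (by rw [hcard]; exact hb2) (one_lt_pow₀ (by norm_num) (by omega)) hP2 hP3
    (by rw [hcard]; exact hbad) (by positivity)
    (by
      rw [← pow_mul, ← pow_add, le_div_iff₀ (by norm_num), show (8 : ℝ) = 2 ^ 3 by norm_num,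
        ← pow_add]
      refine pow_le_pow_right₀ (by norm_num) ?_
      rw [hN]
      omega)
    (by rw [hcard]; exact hsph)
  rw [hcard] at hst
  have hfin : (2 : ℝ) ^ (E + N + f) ≤ 2 ^ (t + 8 + (6 * q + 18) * R) := by
    calc (2 : ℝ) ^ (E + N + f) = 2 ^ E * 2 ^ N * 2 ^ f := by rw [pow_add, pow_add]
      _ ≤ P.card * 2 ^ N * 2 ^ f := by
          refine mul_le_mul_of_nonneg_right ?_ (by positivity)
          exact mul_le_mul_of_nonneg_right hPE (by positivity)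
      _ ≤ _ := hst
      _ = _ := by
          have h1 : (16 : ℝ) * ((2 * R : ℕ) : ℝ) ^ 3 = 2 ^ (3 * q + 7) := by
            rw [hR]
            push_cast
            rw [show (2 : ℝ) * 2 ^ q = 2 ^ (q + 1) by rw [pow_succ]; ring, ← pow_mul,
              show (16 : ℝ) = 2 ^ 4 by norm_num, ← pow_add]
            congr 1
            ring
          rw [h1, show (16 : ℝ) = 2 ^ 4 by norm_num, ← pow_mul, ← pow_mul, ← pow_add,
            ← pow_add, ← pow_add, ← pow_add]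
          congr 1
          ring
  have hexp : E + N + f ≤ t + 8 + (6 * q + 18) * R := by
    by_contra hc
    push Not at hc
    have := pow_lt_pow_right₀ (by norm_num : (1 : ℝ) < 2) hc
    linarith
  have h3 : (6 * q + 18) * R = 6 * (q * R) + 18 * R := by ring
  have h4 : 60 ≤ R := by omega
  omega

end Pool.Agent.Lib.MP_fa373d_co.SE
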