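import Pool.Agent.Lib.MP_fa373d_co.SE.Moment

/-!
# Isolating sets contain heavy sets
-/

namespace Pool.Agent.Lib.MP_fa373d_co.SE

open Finset

set_option linter.unusedSectionVars false

variable {α ι : Type}

/-- The Fourier expansion of the number of the elements with a given pattern. -/
theorem fourier [DecidableEq ι] (v : α → ι → Bool) (V : Finset α) (x : α) (M : Finset ι) :
    ∑ u ∈ M.powerset, (∏ i ∈ u, sg (v x i)) * bs v V u =
      2 ^ M.card * ((V.filter (fun y => ∀ i ∈ M, v y i = v x i)).card : ℝ) := by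
  have h1 : ∀ y : α, ∑ u ∈ M.powerset, (∏ i ∈ u, sg (v x i)) * ∏ i ∈ u, sg (v y i) =
      if ∀ i ∈ M, v y i = v x i then 2 ^ M.card else 0 := by
    intro y
    have h2 : ∏ i ∈ M, (1 + sg (v x i) * sg (v y i)) =
        ∑ u ∈ M.powerset, ∏ i ∈ u, (sg (v x i) * sg (v y i)) := Finset.prod_one_add _
    rw [show ∑ u ∈ M.powerset, (∏ i ∈ u, sg (v x i)) * ∏ i ∈ u, sg (v y i) =
      ∑ u ∈ M.powerset, ∏ i ∈ u, (sg (v x i) * sg (v y i)) from
      Finset.sum_congr rfl fun u _ => Finset.prod_mul_distrib.symm, ← h2]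
    split_ifs with h
    · rw [Finset.prod_congr rfl (g := fun _ => (2 : ℝ)), Finset.prod_const]
      intro i hi
      rw [h i hi, sg_sq]
      norm_num
    · push Not at h
      obtain ⟨i, hi, hne⟩ := h
      refine Finset.prod_eq_zero hi ?_
      rw [sg_mul_eq, if_neg (fun e => hne e.symm)]
      norm_num
  calc ∑ u ∈ M.powerset, (∏ i ∈ u, sg (v x i)) * bs v V u
      = ∑ y ∈ V, ∑ u ∈ M.powerset, (∏ i ∈ u, sg (v x i)) * ∏ i ∈ u, sg (v y i) := by
        rw [Finset.sum_comm]
        refine Finset.sum_congr rfl fun u _ => ?_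
        unfold bs
        rw [Finset.mul_sum]
    _ = ∑ y ∈ V, if ∀ i ∈ M, v y i = v x i then (2 : ℝ) ^ M.card else 0 :=
        Finset.sum_congr rfl fun y _ => h1 y
    _ = _ := by
        rw [← Finset.sum_filter, Finset.sum_const, nsmul_eq_mul]
        ring

theorem bs_empty (v : α → ι → Bool) (V : Finset α) : bs v V ∅ = V.card := by
  simp [bs]

private theorem he_pow (J j : ℕ) (hJ : 1 ≤ J) (hj : j ≤ J) :
    (1 + 1 / (2 * (J : ℝ))) ^ j < 7 / 4 := by
  have hJ' : (0 : ℝ) < J := by exact_mod_cast hJ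
  have h1 : (1 + 1 / (2 * (J : ℝ))) ^ j ≤ Real.exp (1 / 2) := by
    calc (1 + 1 / (2 * (J : ℝ))) ^ j ≤ (1 + 1 / (2 * (J : ℝ))) ^ J := by
          refine pow_le_pow_right₀ ?_ hj
          have : 0 ≤ 1 / (2 * (J : ℝ)) := by positivity
          linarith
      _ ≤ (Real.exp (1 / (2 * (J : ℝ)))) ^ J := by
          refine pow_le_pow_left₀ (by positivity) ?_ J
          have := Real.add_one_le_exp (1 / (2 * (J : ℝ)))
          linarith
      _ = Real.exp (1 / 2) := by
          rw [← Real.exp_nat_mul]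
          congr 1
          field_simp
  have h2 : Real.exp (1 / 2) < 7 / 4 := by
    have h3 : Real.exp (1 / 2) ^ 2 < (7 / 4) ^ 2 := by
      rw [← Real.exp_nat_mul]
      have : ((2 : ℕ) : ℝ) * (1 / 2) = 1 := by norm_num
      rw [this]
      have := Real.exp_one_lt_d9
      linarith
    exact lt_of_pow_lt_pow_left₀ 2 (by norm_num) h3
  linarith

/-- An isolating set contains a heavy set. -/
theorem exists_heavy [DecidableEq ι] {v : α → ι → Bool} {V : Finset α} {J j : ℕ} (hJ : 1 ≤ J)
    (hj : j ≤ J) {x : α} (hx : x ∈ V) {M : Finset ι} (hM : M.card = j) (hI : Iso v V x M)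
    (hV : 2 ^ (j + 2) ≤ V.card) :
    ∃ u ⊆ M, u.Nonempty ∧ (V.card : ℝ) ≤ (2 * J) ^ u.card * |bs v V u| := by
  by_contra hcon
  push Not at hcon
  have hJ' : (0 : ℝ) < J := by exact_mod_cast hJ
  have hVpos : (0 : ℝ) < V.card := by
    have : 0 < V.card := lt_of_lt_of_le (by positivity) hV
    exact_mod_cast this
  have h1 := fourier v V x M
  have h2 : V.filter (fun y => ∀ i ∈ M, v y i = v x i) = {x} := by
    ext y
    rw [Finset.mem_filter, Finset.mem_singleton]
    constructor
    · rintro ⟨hy, h⟩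
      exact hI y hy h
    · rintro rfl
      exact ⟨hx, fun _ _ => rfl⟩
  rw [h2, Finset.card_singleton, hM] at h1
  have h3 : ∑ u ∈ M.powerset, (∏ i ∈ u, sg (v x i)) * bs v V u =
      V.card + ∑ u ∈ M.powerset.erase ∅, (∏ i ∈ u, sg (v x i)) * bs v V u := by
    rw [← Finset.add_sum_erase _ _ (Finset.empty_mem_powerset M), bs_empty]
    simp
  have h4 : ∀ u ∈ M.powerset.erase ∅, -((V.card : ℝ) * (1 / (2 * (J : ℝ))) ^ u.card) ≤
      (∏ i ∈ u, sg (v x i)) * bs v V u := by
    intro u hu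
    rw [Finset.mem_erase, Finset.mem_powerset] at hu
    have h5 := hcon u hu.2 (Finset.nonempty_iff_ne_empty.2 hu.1)
    have h6 : |(∏ i ∈ u, sg (v x i)) * bs v V u| ≤ (V.card : ℝ) * (1 / (2 * (J : ℝ))) ^ u.card := by
      rw [abs_mul, Finset.abs_prod]
      simp only [sg_abs, Finset.prod_const_one, one_mul]
      rw [one_div, inv_pow, ← div_eq_mul_inv, le_div_iff₀ (by positivity)]
      linarith
    exact (abs_le.1 h6).1
  have h7 : ∑ u ∈ M.powerset.erase ∅, (V.card : ℝ) * (1 / (2 * (J : ℝ))) ^ u.card =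
      (V.card : ℝ) * ((1 + 1 / (2 * (J : ℝ))) ^ j - 1) := by
    rw [← Finset.mul_sum]
    congr 1
    have h8 : ∑ u ∈ M.powerset, (1 / (2 * (J : ℝ))) ^ u.card = (1 + 1 / (2 * (J : ℝ))) ^ j := by
      have h9 : ∏ _i ∈ M, (1 + 1 / (2 * (J : ℝ))) =
        ∑ u ∈ M.powerset, ∏ _i ∈ u, (1 / (2 * (J : ℝ))) := Finset.prod_one_add _
      rw [Finset.prod_const, hM] at h9
      rw [h9]
      exact Finset.sum_congr rfl fun u _ => by rw [Finset.prod_const]
    rw [← h8, ← Finset.add_sum_erase _ _ (Finset.empty_mem_powerset M)]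
    simp
  have h10 := Finset.sum_le_sum h4
  rw [Finset.sum_neg_distrib, h7] at h10
  have h11 := he_pow J j hJ hj
  have h12 : (2 : ℝ) ^ j * 4 ≤ V.card := by
    have : ((2 ^ (j + 2) : ℕ) : ℝ) ≤ V.card := by exact_mod_cast hV
    push_cast at this
    rw [pow_add] at this
    linarith
  rw [h3] at h1
  push_cast at h1
  nlinarith

/-- The elements which agree with `x` on `u`. -/
noncomputable def cl [DecidableEq ι] (v : α → ι → Bool) (V : Finset α) (u : Finset ι) (x : α) :
    Finset α := V.filter (fun y => ∀ i ∈ u, v y i = v x i)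

theorem mem_cl [DecidableEq ι] {v : α → ι → Bool} {V : Finset α} {u : Finset ι} {x y : α} :
    y ∈ cl v V u x ↔ y ∈ V ∧ ∀ i ∈ u, v y i = v x i := by
  unfold cl
  rw [Finset.mem_filter]

theorem Iso.sdiff [DecidableEq ι] {v : α → ι → Bool} {V : Finset α} {x : α} {M u : Finset ι}
    (h : Iso v V x M) : Iso v (cl v V u x) x (M \ u) := by
  intro y hy hag
  unfold cl at hy
  rw [Finset.mem_filter] at hy
  refine h y hy.1 fun i hi => ?_
  by_cases hiu : i ∈ u
  · exact hy.2 i hiu
  · exact hag i (Finset.mem_sdiff.2 ⟨hi, hiu⟩)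

section count

variable [Fintype ι] [DecidableEq ι]

theorem mem_IS {v : α → ι → Bool} {V : Finset α} {x : α} {j : ℕ} {M : Finset ι} :
    M ∈ IS v V x j ↔ M.card = j ∧ Iso v V x M := by
  classical
  unfold IS
  rw [Finset.mem_filter, Finset.mem_powersetCard]
  simp

theorem mem_Hv {v : α → ι → Bool} {V : Finset α} {J k : ℕ} {u : Finset ι} :
    u ∈ Hv v V J k ↔ u.card = k ∧ (V.card : ℝ) ≤ (2 * J) ^ k * |bs v V u| := by
  classical
  unfold Hv
  rw [Finset.mem_filter, Finset.mem_powersetCard]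
  simp

/-- The recursion for the number of isolating sets. -/
theorem NI_le {v : α → ι → Bool} {V : Finset α} {J j : ℕ} (hJ : 1 ≤ J) (hj : j ≤ J) {x : α}
    (hx : x ∈ V) (hV : 2 ^ (j + 2) ≤ V.card) :
    NI v V x j ≤ ∑ k ∈ Finset.Icc 1 j, ∑ u ∈ Hv v V J k, NI v (cl v V u x) x (j - k) := by
  classical
  have hsub : IS v V x j ⊆ (Finset.Icc 1 j).biUnion fun k => (Hv v V J k).biUnion fun u =>
      (IS v (cl v V u x) x (j - k)).image (fun M => u ∪ M) := by
    intro M hM
    obtain ⟨hM1, hM2⟩ := mem_IS.1 hM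
    obtain ⟨u, hu1, hu2, hu3⟩ := exists_heavy hJ hj hx hM1 hM2 hV
    simp only [Finset.mem_biUnion, Finset.mem_image]
    have hc : u.card ≤ j := hM1 ▸ Finset.card_le_card hu1
    refine ⟨u.card, Finset.mem_Icc.2 ⟨hu2.card_pos, hc⟩, u, mem_Hv.2 ⟨rfl, hu3⟩, M \ u,
      mem_IS.2 ⟨?_, hM2.sdiff⟩, Finset.union_sdiff_of_subset hu1⟩
    rw [Finset.card_sdiff_of_subset hu1, hM1]
  calc NI v V x j = (IS v V x j).card := rfl
    _ ≤ _ := Finset.card_le_card hsub
    _ ≤ _ := Finset.card_biUnion_le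
    _ ≤ _ := by
        refine Finset.sum_le_sum fun k _ => ?_
        refine Finset.card_biUnion_le.trans ?_
        refine Finset.sum_le_sum fun u _ => ?_
        exact Finset.card_image_le

/-- The trivial bound. -/
theorem sum_NI_le (v : α → ι → Bool) (V : Finset α) (j : ℕ) :
    ∑ x ∈ V, NI v V x j ≤ 2 ^ j * (Fintype.card ι).choose j := by
  classical
  have h1 : ∀ x, NI v V x j = ∑ M ∈ (Finset.univ : Finset ι).powersetCard j,
      if Iso v V x M then 1 else 0 := by
    intro x
    unfold NI IS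
    rw [Finset.card_filter]
  calc ∑ x ∈ V, NI v V x j
      = ∑ M ∈ (Finset.univ : Finset ι).powersetCard j, ∑ x ∈ V,
          if Iso v V x M then 1 else 0 := by
        rw [Finset.sum_comm]
        exact Finset.sum_congr rfl fun x _ => h1 x
    _ ≤ ∑ M ∈ (Finset.univ : Finset ι).powersetCard j, 2 ^ j := by
        refine Finset.sum_le_sum fun M hM => ?_
        have hMc : M.card = j := (Finset.mem_powersetCard.1 hM).2
        rw [← Finset.card_filter]
        have h2 : (V.filter fun x => Iso v V x M).card ≤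
            (Finset.univ : Finset (M → Bool)).card := by
          refine Finset.card_le_card_of_injOn (fun x => fun i : M => v x i)
            (fun _ _ => Finset.mem_univ _) ?_
          intro x hx y hy hxy
          rw [Finset.mem_coe, Finset.mem_filter] at hx hy
          refine (hx.2 y hy.1 fun i hi => ?_).symm
          exact (congrFun hxy ⟨i, hi⟩).symm
        refine h2.trans ?_
        rw [Finset.card_univ, Fintype.card_fun, Fintype.card_bool, Fintype.card_coe, hMc]
    _ = _ := by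
        rw [Finset.sum_const, Finset.card_powersetCard, Finset.card_univ, smul_eq_mul, mul_comm]

end count

end Pool.Agent.Lib.MP_fa373d_co.SE
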