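import Pool.Agent.Lib.MP_fa373d_co.SE.Heavy

/-!
# The number of isolating sets
-/

namespace Pool.Agent.Lib.MP_fa373d_co.SE

open Finset

set_option linter.unusedSectionVars false

section sums

theorem sum_quarter (j : ℕ) : ∑ k ∈ Finset.Icc 1 j, (1 / 4 : ℝ) ^ k ≤ 1 / 2 := by
  have h : ∑ k ∈ Finset.Icc 1 j, (1 / 4 : ℝ) ^ k ≤ (1 - (1 / 4) ^ j) / 2 := by
    induction j with
    | zero => simp
    | succ j ih =>
      rw [Finset.sum_Icc_succ_top (by omega), pow_succ]
      have : (0 : ℝ) ≤ (1 / 4) ^ j := by positivity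
      linarith
  have : (0 : ℝ) ≤ (1 / 4) ^ j := by positivity
  linarith

theorem sum_two_pow (j : ℕ) : ∑ k ∈ Finset.Icc 1 j, (2 : ℝ) ^ (j - k) ≤ 2 ^ j := by
  have h : ∑ k ∈ Finset.Icc 1 j, (2 : ℝ) ^ (j - k) ≤ 2 ^ j - 1 := by
    induction j with
    | zero => simp
    | succ j ih =>
      rw [Finset.sum_Icc_succ_top (by omega)]
      have h1 : ∑ k ∈ Finset.Icc 1 j, (2 : ℝ) ^ (j + 1 - k) =
          2 * ∑ k ∈ Finset.Icc 1 j, (2 : ℝ) ^ (j - k) := by
        rw [Finset.mul_sum]
        refine Finset.sum_congr rfl fun k hk => ?_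
        rw [Finset.mem_Icc] at hk
        rw [show j + 1 - k = (j - k) + 1 by omega, pow_succ]
        ring
      rw [h1, Nat.sub_self, pow_zero, pow_succ]
      linarith
  linarith

theorem sum_pow_le {a : ℝ} (ha : 2 ≤ a) (j : ℕ) : ∑ k ∈ Finset.Icc 1 j, a ^ k ≤ 2 * a ^ j := by
  induction j with
  | zero => simp
  | succ j ih =>
    rw [Finset.sum_Icc_succ_top (by omega), pow_succ]
    have : (0 : ℝ) ≤ a ^ j := by positivity
    nlinarith

theorem choose_step (t J i : ℕ) (hi : i + 1 ≤ J) (ht : 2 * J ≤ t) :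
    (t.choose i) * t ≤ t.choose (i + 1) * (2 * J) := by
  have h1 := Nat.choose_succ_right_eq t i
  have h2 : t ≤ 2 * (t - i) := by omega
  calc t.choose i * t ≤ t.choose i * (2 * (t - i)) := Nat.mul_le_mul_left _ h2
    _ = 2 * (t.choose i * (t - i)) := by ring
    _ = 2 * (t.choose (i + 1) * (i + 1)) := by rw [h1]
    _ = t.choose (i + 1) * (2 * (i + 1)) := by ring
    _ ≤ _ := Nat.mul_le_mul_left _ (by omega)

theorem choose_sub_le (t J j : ℕ) (hj : j ≤ J) (ht : 2 * J ≤ t) : ∀ k ≤ j,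
    t.choose (j - k) * t ^ k ≤ t.choose j * (2 * J) ^ k := by
  intro k
  induction k with
  | zero => simp
  | succ k ih =>
    intro hk
    have h1 := ih (by omega)
    have h2 := choose_step t J (j - (k + 1)) (by omega) ht
    rw [show j - (k + 1) + 1 = j - k by omega] at h2
    calc t.choose (j - (k + 1)) * t ^ (k + 1)
        = (t.choose (j - (k + 1)) * t) * t ^ k := by ring
      _ ≤ (t.choose (j - k) * (2 * J)) * t ^ k := Nat.mul_le_mul_right _ h2
      _ = (t.choose (j - k) * t ^ k) * (2 * J) := by ring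
      _ ≤ (t.choose j * (2 * J) ^ k) * (2 * J) := Nat.mul_le_mul_right _ h1
      _ = _ := by ring

end sums

variable {α ι : Type} [Fintype ι] [DecidableEq ι]

/-- The pattern of `y` on `u`. -/
def pt (v : α → ι → Bool) (u : Finset ι) (y : α) : u → Bool := fun i => v y i

/-- The elements with the pattern `a` on `u`. -/
noncomputable def Vp (v : α → ι → Bool) (V : Finset α) (u : Finset ι) (a : u → Bool) :
    Finset α := V.filter (fun y => pt v u y = a)

theorem cl_eq (v : α → ι → Bool) (V : Finset α) (u : Finset ι) (x : α) :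
    cl v V u x = Vp v V u (pt v u x) := by
  ext y
  rw [mem_cl]
  unfold Vp
  rw [Finset.mem_filter]
  refine and_congr_right fun _ => ?_
  unfold pt
  constructor
  · intro h
    funext i
    exact h i.1 i.2
  · intro h i hi
    exact congrFun h ⟨i, hi⟩

theorem Vp_subset (v : α → ι → Bool) (V : Finset α) (u : Finset ι) (a : u → Bool) :
    Vp v V u a ⊆ V := Finset.filter_subset _ _

/-- A sum over the cells. -/
theorem sum_cells [DecidableEq α] (v : α → ι → Bool) (V E : Finset α) (u : Finset ι)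
    (Ea : (u → Bool) → Finset α) (hE : ∀ a, Ea a ⊆ E) (f : Finset α → α → ℝ)
    (hf : ∀ W x, 0 ≤ f W x) :
    ∑ x ∈ V \ E, f (cl v V u x) x ≤ ∑ a : u → Bool, ∑ x ∈ Vp v V u a \ Ea a,
      f (Vp v V u a) x := by
  classical
  rw [← Finset.sum_fiberwise (V \ E) (fun x => pt v u x)]
  refine Finset.sum_le_sum fun a _ => ?_
  calc ∑ x ∈ (V \ E) with pt v u x = a, f (cl v V u x) x
      = ∑ x ∈ (V \ E) with pt v u x = a, f (Vp v V u a) x := by
        refine Finset.sum_congr rfl fun x hx => ?_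
        rw [cl_eq, (Finset.mem_filter.1 hx).2]
    _ ≤ _ := by
        refine Finset.sum_le_sum_of_subset_of_nonneg ?_ fun x _ _ => hf _ _
        intro x hx
        rw [Finset.mem_filter, Finset.mem_sdiff] at hx
        rw [Finset.mem_sdiff]
        refine ⟨Finset.mem_filter.2 ⟨hx.1.1, hx.2⟩, fun h => hx.1.2 (hE a h)⟩

section main

variable {v : α → ι → Bool} {σ κ b : ℝ} {J r : ℕ}

/-- The contribution of the heavy sets of cardinality `k`. -/
theorem part [DecidableEq α] (hJ : 1 ≤ J) (ht : 2 * J ≤ Fintype.card ι) (hσ : 0 ≤ σ)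
    (hκ : σ ≤ κ) (hκ2 : σ * Fintype.card ι ≤ κ ^ 2) (hb : 0 < b) (hb1 : 32 * J ^ 2 * κ ≤ b ^ r)
    (hb2 : 8 * J * b ^ (r + 1) ≤ Fintype.card ι) {K : ℝ} (hK : 0 ≤ K) {j k : ℕ} (hj : j ≤ J)
    (hk : 1 ≤ k) (hkj : k ≤ j)
    (ih : ∀ V : Finset α, Sp v V σ → ∀ φ : ℝ, 0 < φ → ∃ E ⊆ V, (E.card : ℝ) ≤
      2 ^ (j - k) * φ ^ r ∧ ∑ x ∈ V \ E, (NI v V x (j - k) : ℝ) ≤
        ((Fintype.card ι).choose (j - k) : ℝ) * (K / φ))
    {V : Finset α} (hV : Sp v V σ) (hVc : 1 ≤ V.card) {φ : ℝ} (hφ : 0 < φ) :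
    ∃ E ⊆ V, (E.card : ℝ) ≤ 2 ^ (j - k) * φ ^ r ∧
      ∑ x ∈ V \ E, ∑ u ∈ Hv v V J k, (NI v (cl v V u x) x (j - k) : ℝ) ≤
        ((Fintype.card ι).choose j : ℝ) * (K / φ * (1 / 4) ^ k +
          2 ^ (j + 2) * (8 * J ^ 3) ^ k / V.card) := by
  classical
  set t := Fintype.card ι with ht'
  have hJ' : (1 : ℝ) ≤ J := by exact_mod_cast hJ
  have ht0 : (0 : ℝ) < t := by
    have : 0 < t := by omega
    exact_mod_cast this
  have hm : (0 : ℝ) < V.card := by exact_mod_cast hVc
  have hκ0 : 0 ≤ κ := hσ.trans hκ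
  have hH := card_Hv_le hσ hκ hκ2 hV J k hk hVc
  have hC : ((t.choose (j - k) : ℕ) : ℝ) * (t : ℝ) ^ k ≤ (t.choose j : ℝ) * (2 * J) ^ k := by
    exact_mod_cast choose_sub_le t J j hj ht k hkj
  have hC0 : (0 : ℝ) ≤ (t.choose j : ℝ) := Nat.cast_nonneg _
  have hC1 : (0 : ℝ) ≤ (t.choose (j - k) : ℝ) := Nat.cast_nonneg _
  rcases le_or_gt ((t : ℝ) ^ k) (V.card * κ ^ k) with hA | hB
  · -- many heavy sets
    have hbk : 0 < b ^ k := pow_pos hb k
    have hH2 : ((Hv v V J k).card : ℝ) * 2 ^ k ≤ (b ^ k) ^ r := by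
      have h1 : (t : ℝ) ^ k / V.card ≤ κ ^ k := by
        rw [div_le_iff₀ hm]
        linarith
      calc ((Hv v V J k).card : ℝ) * 2 ^ k
          ≤ (2 * (4 * J ^ 2) ^ k * (κ ^ k + κ ^ k)) * 2 ^ k := by
            refine mul_le_mul_of_nonneg_right (hH.trans ?_) (by positivity)
            exact mul_le_mul_of_nonneg_left (by linarith) (by positivity)
        _ = 4 * (8 * J ^ 2 * κ) ^ k := by
            rw [show (8 : ℝ) * J ^ 2 * κ = (4 * J ^ 2) * κ * 2 by ring, mul_pow, mul_pow]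
            ring
        _ ≤ 4 ^ k * (8 * J ^ 2 * κ) ^ k := by
            refine mul_le_mul_of_nonneg_right ?_ (by positivity)
            calc (4 : ℝ) = 4 ^ 1 := (pow_one _).symm
              _ ≤ 4 ^ k := pow_le_pow_right₀ (by norm_num) hk
        _ = (32 * J ^ 2 * κ) ^ k := by
            rw [← mul_pow]
            congr 1
            ring
        _ ≤ (b ^ r) ^ k := pow_le_pow_left₀ (by positivity) hb1 k
        _ = _ := by rw [← pow_mul, ← pow_mul, mul_comm]
    have hφ' : 0 < φ / b ^ k := by positivity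
    have hch : ∀ (u : Finset ι) (a : u → Bool), ∃ E ⊆ Vp v V u a, (E.card : ℝ) ≤
        2 ^ (j - k) * (φ / b ^ k) ^ r ∧ ∑ x ∈ Vp v V u a \ E, (NI v (Vp v V u a) x (j - k) : ℝ) ≤
        (t.choose (j - k) : ℝ) * (K / (φ / b ^ k)) := fun u a =>
      ih (Vp v V u a) (hV.mono (Vp_subset v V u a)) _ hφ'
    choose Ea hEa1 hEa2 hEa3 using hch
    refine ⟨(Hv v V J k).biUnion fun u => Finset.univ.biUnion fun a => Ea u a, ?_, ?_, ?_⟩
    · intro x hx
      simp only [Finset.mem_biUnion] at hx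
      obtain ⟨u, _, a, _, hx⟩ := hx
      exact Vp_subset v V u a (hEa1 u a hx)
    · have h1 : ((((Hv v V J k).biUnion fun u => Finset.univ.biUnion fun a => Ea u a).card : ℕ)
          : ℝ) ≤ ∑ u ∈ Hv v V J k, ∑ a : u → Bool, ((Ea u a).card : ℝ) := by
        have : ((Hv v V J k).biUnion fun u => Finset.univ.biUnion fun a => Ea u a).card ≤
            ∑ u ∈ Hv v V J k, ∑ a : u → Bool, (Ea u a).card :=
          Finset.card_biUnion_le.trans (Finset.sum_le_sum fun u _ => Finset.card_biUnion_le)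
        exact_mod_cast this
      refine h1.trans ?_
      calc ∑ u ∈ Hv v V J k, ∑ a : u → Bool, ((Ea u a).card : ℝ)
          ≤ ∑ u ∈ Hv v V J k, ∑ _a : u → Bool, (2 : ℝ) ^ (j - k) * (φ / b ^ k) ^ r :=
            Finset.sum_le_sum fun u _ => Finset.sum_le_sum fun a _ => hEa2 u a
        _ = ∑ u ∈ Hv v V J k, (2 : ℝ) ^ k * (2 ^ (j - k) * (φ / b ^ k) ^ r) := by
            refine Finset.sum_congr rfl fun u hu => ?_
            rw [Finset.sum_const, Finset.card_univ, Fintype.card_fun, Fintype.card_bool,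
              Fintype.card_coe, (mem_Hv.1 hu).1, nsmul_eq_mul]
            push_cast
            ring
        _ = (((Hv v V J k).card : ℝ) * 2 ^ k) * (2 ^ (j - k) * (φ / b ^ k) ^ r) := by
            rw [Finset.sum_const, nsmul_eq_mul]
            ring
        _ ≤ (b ^ k) ^ r * (2 ^ (j - k) * (φ / b ^ k) ^ r) :=
            mul_le_mul_of_nonneg_right hH2 (by positivity)
        _ = _ := by
            rw [div_pow]
            field_simp
    · rw [Finset.sum_comm]
      calc ∑ u ∈ Hv v V J k, ∑ x ∈ V \ ((Hv v V J k).biUnion fun u => Finset.univ.biUnion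
            fun a => Ea u a), (NI v (cl v V u x) x (j - k) : ℝ)
          ≤ ∑ u ∈ Hv v V J k, ∑ a : u → Bool, ∑ x ∈ Vp v V u a \ Ea u a,
              (NI v (Vp v V u a) x (j - k) : ℝ) := by
            refine Finset.sum_le_sum fun u hu => ?_
            refine sum_cells v V _ u (Ea u) (fun a => ?_)
              (fun W x => (NI v W x (j - k) : ℝ)) fun _ _ => Nat.cast_nonneg _
            intro x hx
            simp only [Finset.mem_biUnion]
            exact ⟨u, hu, a, Finset.mem_univ _, hx⟩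
        _ ≤ ∑ u ∈ Hv v V J k, ∑ _a : u → Bool, (t.choose (j - k) : ℝ) * (K / (φ / b ^ k)) :=
            Finset.sum_le_sum fun u _ => Finset.sum_le_sum fun a _ => hEa3 u a
        _ = ∑ u ∈ Hv v V J k, (2 : ℝ) ^ k * ((t.choose (j - k) : ℝ) * (K / (φ / b ^ k))) := by
            refine Finset.sum_congr rfl fun u hu => ?_
            rw [Finset.sum_const, Finset.card_univ, Fintype.card_fun, Fintype.card_bool,
              Fintype.card_coe, (mem_Hv.1 hu).1, nsmul_eq_mul]
            push_cast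
            ring
        _ = (((Hv v V J k).card : ℝ) * 2 ^ k) * ((t.choose (j - k) : ℝ) * (K / (φ / b ^ k))) := by
            rw [Finset.sum_const, nsmul_eq_mul]
            ring
        _ ≤ (b ^ k) ^ r * ((t.choose (j - k) : ℝ) * (K / (φ / b ^ k))) :=
            mul_le_mul_of_nonneg_right hH2 (by positivity)
        _ = ((t.choose (j - k) : ℝ) * (t : ℝ) ^ k) * ((b ^ k) ^ (r + 1) / (t : ℝ) ^ k * (K / φ)) := by
            field_simp
            ring
        _ ≤ ((t.choose j : ℝ) * (2 * J) ^ k) * ((b ^ k) ^ (r + 1) / (t : ℝ) ^ k * (K / φ)) :=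
            mul_le_mul_of_nonneg_right hC (by positivity)
        _ = (t.choose j : ℝ) * (K / φ * ((2 * J * b ^ (r + 1)) / t) ^ k) := by
            rw [div_pow, mul_pow (2 * (J : ℝ)) (b ^ (r + 1)) k, ← pow_mul b k (r + 1),
              ← pow_mul b (r + 1) k, mul_comm k (r + 1)]
            ring
        _ ≤ (t.choose j : ℝ) * (K / φ * (1 / 4) ^ k) := by
            refine mul_le_mul_of_nonneg_left ?_ hC0
            refine mul_le_mul_of_nonneg_left ?_ (by positivity)
            refine pow_le_pow_left₀ (by positivity) ?_ k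
            rw [div_le_iff₀ ht0]
            linarith
        _ ≤ _ := by
            refine mul_le_mul_of_nonneg_left ?_ hC0
            have : (0 : ℝ) ≤ 2 ^ (j + 2) * (8 * J ^ 3) ^ k / V.card := by positivity
            linarith
  · -- few heavy sets
    refine ⟨∅, Finset.empty_subset _, ?_, ?_⟩
    · rw [Finset.card_empty, Nat.cast_zero]
      positivity
    · have hH2 : ((Hv v V J k).card : ℝ) ≤ 4 * (4 * J ^ 2) ^ k * ((t : ℝ) ^ k / V.card) := by
        refine hH.trans ?_
        have h1 : κ ^ k ≤ (t : ℝ) ^ k / V.card := by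
          rw [le_div_iff₀ hm]
          linarith
        calc 2 * (4 * (J : ℝ) ^ 2) ^ k * (κ ^ k + (t : ℝ) ^ k / V.card)
            ≤ 2 * (4 * (J : ℝ) ^ 2) ^ k * ((t : ℝ) ^ k / V.card + (t : ℝ) ^ k / V.card) :=
              mul_le_mul_of_nonneg_left (by linarith) (by positivity)
          _ = _ := by ring
      rw [Finset.sum_comm]
      calc ∑ u ∈ Hv v V J k, ∑ x ∈ V \ ∅, (NI v (cl v V u x) x (j - k) : ℝ)
          ≤ ∑ u ∈ Hv v V J k, ∑ a : u → Bool, ∑ x ∈ Vp v V u a \ ∅,
              (NI v (Vp v V u a) x (j - k) : ℝ) := by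
            refine Finset.sum_le_sum fun u hu => ?_
            exact sum_cells v V _ u (fun _ => ∅) (fun a => Finset.empty_subset _)
              (fun W x => (NI v W x (j - k) : ℝ)) fun _ _ => Nat.cast_nonneg _
        _ ≤ ∑ u ∈ Hv v V J k, ∑ _a : u → Bool, (2 : ℝ) ^ (j - k) * (t.choose (j - k) : ℝ) := by
            refine Finset.sum_le_sum fun u _ => Finset.sum_le_sum fun a _ => ?_
            rw [Finset.sdiff_empty]
            exact_mod_cast sum_NI_le v (Vp v V u a) (j - k)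
        _ = ∑ u ∈ Hv v V J k, (2 : ℝ) ^ k * ((2 : ℝ) ^ (j - k) * (t.choose (j - k) : ℝ)) := by
            refine Finset.sum_congr rfl fun u hu => ?_
            rw [Finset.sum_const, Finset.card_univ, Fintype.card_fun, Fintype.card_bool,
              Fintype.card_coe, (mem_Hv.1 hu).1, nsmul_eq_mul]
            push_cast
            ring
        _ = ((Hv v V J k).card : ℝ) * (2 ^ j * (t.choose (j - k) : ℝ)) := by
            rw [Finset.sum_const, nsmul_eq_mul]
            have : (2 : ℝ) ^ j = 2 ^ k * 2 ^ (j - k) := by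
              rw [← pow_add]
              congr 1
              omega
            rw [this]
            ring
        _ ≤ (4 * (4 * J ^ 2) ^ k * ((t : ℝ) ^ k / V.card)) * (2 ^ j * (t.choose (j - k) : ℝ)) :=
            mul_le_mul_of_nonneg_right hH2 (by positivity)
        _ = ((t.choose (j - k) : ℝ) * (t : ℝ) ^ k) * (4 * 2 ^ j * (4 * J ^ 2) ^ k / V.card) := by
            ring
        _ ≤ ((t.choose j : ℝ) * (2 * J) ^ k) * (4 * 2 ^ j * (4 * J ^ 2) ^ k / V.card) :=
            mul_le_mul_of_nonneg_right hC (by positivity)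
        _ = (t.choose j : ℝ) * (2 ^ (j + 2) * (8 * J ^ 3) ^ k / V.card) := by
            rw [show (8 : ℝ) * J ^ 3 = (2 * J) * (4 * J ^ 2) by ring, mul_pow (2 * (J : ℝ)),
              pow_add]
            ring
        _ ≤ _ := by
            refine mul_le_mul_of_nonneg_left ?_ hC0
            have : (0 : ℝ) ≤ K / φ * (1 / 4) ^ k := by positivity
            linarith

/-- The number of isolating sets. -/
theorem main [DecidableEq α] (hr : 1 ≤ r) (hJ : 1 ≤ J) (ht : 2 * J ≤ Fintype.card ι) (hσ : 0 ≤ σ)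
    (hκ : σ ≤ κ) (hκ2 : σ * Fintype.card ι ≤ κ ^ 2) (hb : 0 < b) (hb1 : 32 * J ^ 2 * κ ≤ b ^ r)
    (hb2 : 8 * J * b ^ (r + 1) ≤ Fintype.card ι) : ∀ j : ℕ, j ≤ J → ∀ V : Finset α, Sp v V σ →
    ∀ φ : ℝ, 0 < φ → ∃ E ⊆ V, (E.card : ℝ) ≤ 2 ^ j * φ ^ r ∧
      ∑ x ∈ V \ E, (NI v V x j : ℝ) ≤
        ((Fintype.card ι).choose j : ℝ) * (16 * (16 * J ^ 3) ^ J / φ) := by
  intro j
  induction j using Nat.strong_induction_on with
  | _ j ih =>
  intro hj V hV φ hφ
  have hJ' : (1 : ℝ) ≤ J := by exact_mod_cast hJ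
  have hJ3 : (1 : ℝ) ≤ (J : ℝ) ^ 3 := one_le_pow₀ hJ'
  set K : ℝ := 16 * (16 * J ^ 3) ^ J with hKdef
  have hK0 : 0 ≤ K := by positivity
  have hC0 : (0 : ℝ) ≤ ((Fintype.card ι).choose j : ℝ) := Nat.cast_nonneg _
  rcases lt_or_ge (V.card : ℝ) (φ ^ r) with h1 | h1
  · refine ⟨V, Finset.Subset.refl _, ?_, ?_⟩
    · have : (1 : ℝ) ≤ 2 ^ j := one_le_pow₀ (by norm_num)
      nlinarith [pow_pos hφ r]
    · rw [Finset.sdiff_self, Finset.sum_empty]
      positivity
  rcases Nat.lt_or_ge V.card (2 ^ (j + 2)) with h2 | h2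
  · refine ⟨∅, Finset.empty_subset _, ?_, ?_⟩
    · rw [Finset.card_empty, Nat.cast_zero]
      positivity
    · rw [Finset.sdiff_empty]
      have h3 : ∑ x ∈ V, (NI v V x j : ℝ) ≤ 2 ^ j * ((Fintype.card ι).choose j : ℝ) := by
        exact_mod_cast sum_NI_le v V j
      refine h3.trans ?_
      rw [mul_comm]
      refine mul_le_mul_of_nonneg_left ?_ hC0
      rw [le_div_iff₀ hφ]
      have h4 : φ ≤ 2 ^ (j + 2) := by
        by_contra hcon
        push Not at hcon
        have h5 : (1 : ℝ) ≤ 2 ^ (j + 2) := one_le_pow₀ (by norm_num)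
        have h6 : φ ≤ φ ^ r := by
          have h8 : 1 ≤ φ := by linarith
          calc φ = φ ^ 1 := (pow_one _).symm
            _ ≤ φ ^ r := pow_le_pow_right₀ h8 hr
        have h7 : ((V.card : ℕ) : ℝ) < 2 ^ (j + 2) := by exact_mod_cast h2
        linarith
      calc (2 : ℝ) ^ j * φ ≤ 2 ^ j * 2 ^ (j + 2) := mul_le_mul_of_nonneg_left h4 (by positivity)
        _ ≤ 2 ^ J * (2 ^ J * 4) := by
            rw [pow_add]
            have h9 : (2 : ℝ) ^ j ≤ 2 ^ J := pow_le_pow_right₀ (by norm_num) hj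
            have h10 : (0 : ℝ) < 2 ^ j := by positivity
            nlinarith
        _ = 4 * 4 ^ J := by
            have : (4 : ℝ) ^ J = 2 ^ J * 2 ^ J := by
              rw [← mul_pow]
              norm_num
            rw [this]
            ring
        _ ≤ K := by
            rw [hKdef]
            have h11 : (4 : ℝ) ^ J ≤ (16 * J ^ 3) ^ J := by
              refine pow_le_pow_left₀ (by norm_num) ?_ J
              linarith
            have h12 : (0 : ℝ) < 4 ^ J := by positivity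
            linarith
  -- the main case
  have hVc : 1 ≤ V.card := le_trans Nat.one_le_two_pow h2
  have hm : (0 : ℝ) < V.card := by exact_mod_cast hVc
  have hparts : ∀ k ∈ Finset.Icc 1 j, ∃ E ⊆ V, (E.card : ℝ) ≤ 2 ^ (j - k) * φ ^ r ∧
      ∑ x ∈ V \ E, ∑ u ∈ Hv v V J k, (NI v (cl v V u x) x (j - k) : ℝ) ≤
        ((Fintype.card ι).choose j : ℝ) * (K / φ * (1 / 4) ^ k +
          2 ^ (j + 2) * (8 * J ^ 3) ^ k / V.card) := by
    intro k hk
    rw [Finset.mem_Icc] at hk
    exact part hJ ht hσ hκ hκ2 hb hb1 hb2 hK0 hj hk.1 hk.2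
      (ih (j - k) (by omega) (by omega)) hV hVc hφ
  choose! E hE1 hE2 hE3 using hparts
  refine ⟨(Finset.Icc 1 j).biUnion E, Finset.biUnion_subset.2 hE1, ?_, ?_⟩
  · calc ((((Finset.Icc 1 j).biUnion E).card : ℕ) : ℝ) ≤ ∑ k ∈ Finset.Icc 1 j, ((E k).card : ℝ) := by
          exact_mod_cast Finset.card_biUnion_le
      _ ≤ ∑ k ∈ Finset.Icc 1 j, 2 ^ (j - k) * φ ^ r := Finset.sum_le_sum hE2
      _ = (∑ k ∈ Finset.Icc 1 j, (2 : ℝ) ^ (j - k)) * φ ^ r := by rw [Finset.sum_mul]
      _ ≤ _ := mul_le_mul_of_nonneg_right (sum_two_pow j) (by positivity)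
  · calc ∑ x ∈ V \ (Finset.Icc 1 j).biUnion E, (NI v V x j : ℝ)
        ≤ ∑ x ∈ V \ (Finset.Icc 1 j).biUnion E, ∑ k ∈ Finset.Icc 1 j, ∑ u ∈ Hv v V J k,
            (NI v (cl v V u x) x (j - k) : ℝ) := by
          refine Finset.sum_le_sum fun x hx => ?_
          exact_mod_cast NI_le hJ hj (Finset.mem_sdiff.1 hx).1 h2
      _ = ∑ k ∈ Finset.Icc 1 j, ∑ x ∈ V \ (Finset.Icc 1 j).biUnion E, ∑ u ∈ Hv v V J k,
            (NI v (cl v V u x) x (j - k) : ℝ) := Finset.sum_comm
      _ ≤ ∑ k ∈ Finset.Icc 1 j, ((Fintype.card ι).choose j : ℝ) * (K / φ * (1 / 4) ^ k +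
          2 ^ (j + 2) * (8 * J ^ 3) ^ k / V.card) := by
          refine Finset.sum_le_sum fun k hk => le_trans ?_ (hE3 k hk)
          refine Finset.sum_le_sum_of_subset_of_nonneg ?_ fun x _ _ => ?_
          · exact Finset.sdiff_subset_sdiff (Finset.Subset.refl _)
              (Finset.subset_biUnion_of_mem E hk)
          · exact Finset.sum_nonneg fun _ _ => Nat.cast_nonneg _
      _ = ((Fintype.card ι).choose j : ℝ) * (K / φ * (∑ k ∈ Finset.Icc 1 j, (1 / 4 : ℝ) ^ k) +
          2 ^ (j + 2) / V.card * ∑ k ∈ Finset.Icc 1 j, (8 * (J : ℝ) ^ 3) ^ k) := by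
          rw [← Finset.mul_sum, Finset.sum_add_distrib, Finset.mul_sum, Finset.mul_sum]
          congr 2
          exact Finset.sum_congr rfl fun k _ => by ring
      _ ≤ ((Fintype.card ι).choose j : ℝ) * (K / φ * (1 / 2) + K / φ * (1 / 2)) := by
          refine mul_le_mul_of_nonneg_left ?_ hC0
          refine add_le_add (mul_le_mul_of_nonneg_left (sum_quarter j) (by positivity)) ?_
          have h3 := sum_pow_le (a := 8 * (J : ℝ) ^ 3) (by linarith) j
          have h4 : (8 * (J : ℝ) ^ 3) ^ j ≤ (8 * (J : ℝ) ^ 3) ^ J :=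
            pow_le_pow_right₀ (by linarith) hj
          have h5 : (2 : ℝ) ^ (j + 2) ≤ 4 * 2 ^ J := by
            rw [pow_add]
            have h9 : (2 : ℝ) ^ j ≤ 2 ^ J := pow_le_pow_right₀ (by norm_num) hj
            linarith
          have h6 : φ ≤ V.card := by
            rcases le_total φ 1 with h8 | h8
            · have : (1 : ℝ) ≤ V.card := by exact_mod_cast hVc
              linarith
            · calc φ = φ ^ 1 := (pow_one _).symm
                _ ≤ φ ^ r := pow_le_pow_right₀ h8 hr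
                _ ≤ _ := h1
          calc (2 : ℝ) ^ (j + 2) / V.card * ∑ k ∈ Finset.Icc 1 j, (8 * (J : ℝ) ^ 3) ^ k
              ≤ (4 * 2 ^ J) / V.card * (2 * (8 * (J : ℝ) ^ 3) ^ J) := by
                refine mul_le_mul ?_ (h3.trans (by linarith)) ?_ (by positivity)
                · exact div_le_div_of_nonneg_right h5 hm.le
                · exact Finset.sum_nonneg fun _ _ => by positivity
            _ = (K / 2) / V.card := by
                rw [hKdef, show (16 : ℝ) * J ^ 3 = 2 * (8 * J ^ 3) by ring, mul_pow 2]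
                ring
            _ ≤ (K / 2) / φ := div_le_div_of_nonneg_left (by positivity) hφ h6
            _ = _ := by ring
      _ = _ := by ring

end main

end Pool.Agent.Lib.MP_fa373d_co.SE
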