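import Pool.Agent.Lib.MP_fa373d_co.SE.Defs

/-!
# Moments of inner products
-/

namespace Pool.Agent.Lib.MP_fa373d_co.SE

open Finset

variable {α ι : Type} [Fintype ι]

/-- The moment of order `k`. -/
noncomputable def mom (v : α → ι → Bool) (V : Finset α) (k : ℕ) : ℝ :=
  ∑ x ∈ V, ∑ y ∈ V, ip v x y ^ k

/-- The moments as sums of squares. -/
theorem mom_eq (v : α → ι → Bool) (V : Finset α) (k : ℕ) :
    mom v V k = ∑ p : Fin k → ι, (∑ y ∈ V, ∏ l, sg (v y (p l))) ^ 2 := by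
  classical
  have h1 : ∀ x y : α, ip v x y ^ k =
      ∑ p : Fin k → ι, (∏ l, sg (v x (p l))) * ∏ l, sg (v y (p l)) := by
    intro x y
    unfold ip
    rw [Fintype.sum_pow]
    refine Finset.sum_congr rfl fun p _ => ?_
    rw [Finset.prod_mul_distrib]
  have h2 : ∀ p : Fin k → ι, (∑ y ∈ V, ∏ l, sg (v y (p l))) ^ 2 =
      ∑ x ∈ V, ∑ y ∈ V, (∏ l, sg (v x (p l))) * ∏ l, sg (v y (p l)) := by
    intro p
    rw [pow_two, Finset.sum_mul_sum]
  calc mom v V k = ∑ x ∈ V, ∑ y ∈ V, ∑ p : Fin k → ι,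
        (∏ l, sg (v x (p l))) * ∏ l, sg (v y (p l)) := by
        unfold mom
        exact Finset.sum_congr rfl fun x _ => Finset.sum_congr rfl fun y _ => h1 x y
    _ = ∑ x ∈ V, ∑ p : Fin k → ι, ∑ y ∈ V,
        (∏ l, sg (v x (p l))) * ∏ l, sg (v y (p l)) :=
        Finset.sum_congr rfl fun x _ => Finset.sum_comm
    _ = ∑ p : Fin k → ι, ∑ x ∈ V, ∑ y ∈ V,
        (∏ l, sg (v x (p l))) * ∏ l, sg (v y (p l)) := Finset.sum_comm
    _ = _ := Finset.sum_congr rfl fun p _ => (h2 p).symm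

theorem mom_nonneg (v : α → ι → Bool) (V : Finset α) (k : ℕ) : 0 ≤ mom v V k := by
  rw [mom_eq]
  exact Finset.sum_nonneg fun p _ => sq_nonneg _

/-- The squares of the character sums of the sets of cardinality `k`. -/
theorem sum_bs_sq_le_mom (v : α → ι → Bool) (V : Finset α) (k : ℕ) :
    ∑ u ∈ (Finset.univ : Finset ι).powersetCard k, bs v V u ^ 2 ≤ mom v V k := by
  classical
  rw [mom_eq]
  have key : ∀ u ∈ (Finset.univ : Finset ι).powersetCard k, ∃ p : Fin k → ι,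
      Function.Injective p ∧ Finset.univ.image p = u := by
    intro u hu
    have hu : u.card = k := (Finset.mem_powersetCard.1 hu).2
    let e := (Fintype.equivFinOfCardEq (α := u) (n := k) (by simpa using hu)).symm
    refine ⟨fun l => (e l : ι), fun a b hab => ?_, ?_⟩
    · exact e.injective (Subtype.ext hab)
    · ext i
      simp only [Finset.mem_image, Finset.mem_univ, true_and]
      constructor
      · rintro ⟨l, rfl⟩
        exact (e l).2
      · intro hi
        exact ⟨e.symm ⟨i, hi⟩, by simp⟩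
  choose p hp1 hp2 using key
  let P : {u // u ∈ (Finset.univ : Finset ι).powersetCard k} → (Fin k → ι) := fun u => p u.1 u.2
  have hP : Function.Injective P := by
    intro a b hab
    apply Subtype.ext
    rw [← hp2 a.1 a.2, ← hp2 b.1 b.2]
    exact congrArg (fun q : Fin k → ι => Finset.univ.image q) hab
  have h3 : ∀ u : {u // u ∈ (Finset.univ : Finset ι).powersetCard k},
      bs v V u.1 = ∑ y ∈ V, ∏ l, sg (v y (P u l)) := by
    intro u
    unfold bs
    refine Finset.sum_congr rfl fun y _ => ?_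
    conv_lhs => rw [← hp2 u.1 u.2]
    rw [Finset.prod_image (fun a _ b _ hab => hp1 u.1 u.2 hab)]
  rw [← Finset.sum_attach]
  calc ∑ u ∈ ((Finset.univ : Finset ι).powersetCard k).attach, bs v V u.1 ^ 2
      = ∑ u ∈ ((Finset.univ : Finset ι).powersetCard k).attach,
          (∑ y ∈ V, ∏ l, sg (v y (P u l))) ^ 2 :=
        Finset.sum_congr rfl fun u _ => by rw [h3]
    _ = ∑ q ∈ (((Finset.univ : Finset ι).powersetCard k).attach).image P,
          (∑ y ∈ V, ∏ l, sg (v y (q l))) ^ 2 :=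
        (Finset.sum_image (f := fun q : Fin k → ι => (∑ y ∈ V, ∏ l, sg (v y (q l))) ^ 2)
          (fun a _ b _ hab => hP hab)).symm
    _ ≤ _ := Finset.sum_le_sum_of_subset_of_nonneg (Finset.subset_univ _)
        fun q _ _ => sq_nonneg _

/-- The diagonal. -/
theorem mom_split [DecidableEq α] (v : α → ι → Bool) (V : Finset α) (f : ℝ → ℝ) :
    ∑ x ∈ V, ∑ y ∈ V, f (ip v x y) = V.card * f (Fintype.card ι) +
      ∑ x ∈ V, ∑ y ∈ V.erase x, f (ip v x y) := by
  have : ∀ x ∈ V, ∑ y ∈ V, f (ip v x y) = f (Fintype.card ι) +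
      ∑ y ∈ V.erase x, f (ip v x y) := by
    intro x hx
    rw [← Finset.add_sum_erase V _ hx, ip_self]
  rw [Finset.sum_congr rfl this, Finset.sum_add_distrib, Finset.sum_const, nsmul_eq_mul]

/-- The sum of the powers of the positive parts. -/
theorem sum_pos_le {v : α → ι → Bool} {V : Finset α} {σ : ℝ} (hσ : 0 ≤ σ) (h : Sp v V σ)
    (k : ℕ) : ∑ x ∈ V, ∑ y ∈ V, max (ip v x y) 0 ^ k ≤
      (V.card : ℝ) ^ 2 * σ ^ k + V.card * (Fintype.card ι : ℝ) ^ k := by
  classical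
  rw [mom_split v V (fun s => max s 0 ^ k)]
  have h1 : max (Fintype.card ι : ℝ) 0 = Fintype.card ι := max_eq_left (Nat.cast_nonneg _)
  simp only [h1]
  have h2 : ∑ x ∈ V, ∑ y ∈ V.erase x, max (ip v x y) 0 ^ k ≤ (V.card : ℝ) ^ 2 * σ ^ k := by
    calc ∑ x ∈ V, ∑ y ∈ V.erase x, max (ip v x y) 0 ^ k ≤ ∑ x ∈ V, ∑ _y ∈ V.erase x, σ ^ k := by
          refine Finset.sum_le_sum fun x hx => Finset.sum_le_sum fun y hy => ?_
          refine pow_le_pow_left₀ (le_max_right _ _) (max_le ?_ hσ) k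
          exact h x hx y (Finset.mem_of_mem_erase hy) (Finset.ne_of_mem_erase hy).symm
      _ ≤ ∑ x ∈ V, ∑ _y ∈ V, σ ^ k := by
          refine Finset.sum_le_sum fun x _ => ?_
          exact Finset.sum_le_sum_of_subset_of_nonneg (Finset.erase_subset _ _)
            fun _ _ _ => pow_nonneg hσ k
      _ = _ := by
          rw [Finset.sum_const, Finset.sum_const, nsmul_eq_mul, nsmul_eq_mul]
          ring
  linarith

/-- The absolute moments of odd order. -/
theorem sum_abs_le {v : α → ι → Bool} {V : Finset α} {σ : ℝ} (hσ : 0 ≤ σ) (h : Sp v V σ)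
    (k : ℕ) (hk : Odd k) : ∑ x ∈ V, ∑ y ∈ V, |ip v x y| ^ k ≤
      2 * ((V.card : ℝ) ^ 2 * σ ^ k + V.card * (Fintype.card ι : ℝ) ^ k) := by
  have h1 : ∀ s : ℝ, |s| ^ k = 2 * max s 0 ^ k - s ^ k := by
    intro s
    have hk0 : k ≠ 0 := fun h => by simp [h] at hk
    rcases le_total 0 s with hs | hs
    · rw [abs_of_nonneg hs, max_eq_left hs]
      ring
    · rw [abs_of_nonpos hs, max_eq_right hs, hk.neg_pow, zero_pow hk0]
      ring
  have h2 := mom_nonneg v V k
  have h3 := sum_pos_le hσ h k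
  calc ∑ x ∈ V, ∑ y ∈ V, |ip v x y| ^ k
      = 2 * (∑ x ∈ V, ∑ y ∈ V, max (ip v x y) 0 ^ k) - mom v V k := by
        unfold mom
        rw [Finset.mul_sum, ← Finset.sum_sub_distrib]
        refine Finset.sum_congr rfl fun x _ => ?_
        rw [Finset.mul_sum, ← Finset.sum_sub_distrib]
        exact Finset.sum_congr rfl fun y _ => h1 _
    _ ≤ _ := by linarith

/-- The moments. -/
theorem mom_le {v : α → ι → Bool} {V : Finset α} {σ κ : ℝ} (hσ : 0 ≤ σ) (hκ : σ ≤ κ)
    (hκ2 : σ * Fintype.card ι ≤ κ ^ 2) (h : Sp v V σ) (k : ℕ) (hk : 1 ≤ k) :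
    mom v V k ≤ 2 * ((V.card : ℝ) ^ 2 * κ ^ k + V.card * (Fintype.card ι : ℝ) ^ k) := by
  have hm : (0 : ℝ) ≤ (V.card : ℝ) ^ 2 := sq_nonneg _
  have ht : (0 : ℝ) ≤ Fintype.card ι := Nat.cast_nonneg _
  rcases Nat.even_or_odd k with hk2 | hk2
  · -- even
    obtain ⟨l, rfl⟩ : ∃ l, k = l + 2 := ⟨k - 2, by
      rcases hk2 with ⟨r, hr⟩
      omega⟩
    have hl : Odd (l + 1) := by
      rcases hk2 with ⟨r, hr⟩
      exact ⟨r - 1, by omega⟩
    have h1 := sum_abs_le hσ h (l + 1) hl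
    calc mom v V (l + 2) ≤ Fintype.card ι * ∑ x ∈ V, ∑ y ∈ V, |ip v x y| ^ (l + 1) := by
          unfold mom
          rw [Finset.mul_sum]
          refine Finset.sum_le_sum fun x _ => ?_
          rw [Finset.mul_sum]
          refine Finset.sum_le_sum fun y _ => ?_
          calc ip v x y ^ (l + 2) ≤ |ip v x y ^ (l + 2)| := le_abs_self _
            _ = |ip v x y| * |ip v x y| ^ (l + 1) := by rw [abs_pow]; ring
            _ ≤ _ := mul_le_mul_of_nonneg_right (ip_le v x y) (pow_nonneg (abs_nonneg _) _)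
      _ ≤ Fintype.card ι * (2 * ((V.card : ℝ) ^ 2 * σ ^ (l + 1) +
            V.card * (Fintype.card ι : ℝ) ^ (l + 1))) := mul_le_mul_of_nonneg_left h1 ht
      _ = 2 * ((V.card : ℝ) ^ 2 * ((σ * Fintype.card ι) * σ ^ l) +
            V.card * (Fintype.card ι : ℝ) ^ (l + 2)) := by ring
      _ ≤ _ := by
          have h2 : (σ * Fintype.card ι) * σ ^ l ≤ κ ^ (l + 2) := by
            calc (σ * Fintype.card ι) * σ ^ l ≤ κ ^ 2 * κ ^ l :=
                  mul_le_mul hκ2 (pow_le_pow_left₀ hσ hκ l) (pow_nonneg hσ l) (sq_nonneg _)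
              _ = _ := by ring
          have h3 := mul_le_mul_of_nonneg_left h2 hm
          linarith
  · have h1 := sum_abs_le hσ h k hk2
    calc mom v V k ≤ ∑ x ∈ V, ∑ y ∈ V, |ip v x y| ^ k := by
          unfold mom
          refine Finset.sum_le_sum fun x _ => Finset.sum_le_sum fun y _ => ?_
          rw [← abs_pow]
          exact le_abs_self _
      _ ≤ 2 * ((V.card : ℝ) ^ 2 * σ ^ k + V.card * (Fintype.card ι : ℝ) ^ k) := h1
      _ ≤ _ := by
          have h3 := mul_le_mul_of_nonneg_left (pow_le_pow_left₀ hσ hκ k) hm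
          linarith

/-- The sets of cardinality `k` with a large character sum. -/
noncomputable def Hv (v : α → ι → Bool) (V : Finset α) (J k : ℕ) : Finset (Finset ι) := by
  classical
  exact ((Finset.univ : Finset ι).powersetCard k).filter
    (fun u => (V.card : ℝ) ≤ (2 * J) ^ k * |bs v V u|)

/-- The number of heavy sets. -/
theorem card_Hv_le {v : α → ι → Bool} {V : Finset α} {σ κ : ℝ} (hσ : 0 ≤ σ) (hκ : σ ≤ κ)
    (hκ2 : σ * Fintype.card ι ≤ κ ^ 2) (h : Sp v V σ) (J k : ℕ) (hk : 1 ≤ k)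
    (hV : 1 ≤ V.card) :
    ((Hv v V J k).card : ℝ) ≤ 2 * (4 * J ^ 2) ^ k *
      (κ ^ k + (Fintype.card ι : ℝ) ^ k / V.card) := by
  classical
  have hV' : (0 : ℝ) < V.card := by exact_mod_cast hV
  have h1 : ((Hv v V J k).card : ℝ) * (V.card : ℝ) ^ 2 ≤ (4 * J ^ 2) ^ k * mom v V k := by
    calc ((Hv v V J k).card : ℝ) * (V.card : ℝ) ^ 2
        = ∑ _u ∈ Hv v V J k, (V.card : ℝ) ^ 2 := by
          rw [Finset.sum_const, nsmul_eq_mul]
      _ ≤ ∑ u ∈ Hv v V J k, (4 * J ^ 2) ^ k * bs v V u ^ 2 := by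
          refine Finset.sum_le_sum fun u hu => ?_
          have hu' : (V.card : ℝ) ≤ (2 * J) ^ k * |bs v V u| := (Finset.mem_filter.1 hu).2
          have h2 := pow_le_pow_left₀ hV'.le hu' 2
          calc (V.card : ℝ) ^ 2 ≤ ((2 * J) ^ k * |bs v V u|) ^ 2 := h2
            _ = _ := by
                rw [mul_pow, sq_abs, ← pow_mul, mul_comm k 2, pow_mul, mul_pow]
                norm_num
      _ ≤ ∑ u ∈ (Finset.univ : Finset ι).powersetCard k, (4 * (J : ℝ) ^ 2) ^ k * bs v V u ^ 2 := by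
          refine Finset.sum_le_sum_of_subset_of_nonneg (Finset.filter_subset _ _) fun u _ _ => ?_
          positivity
      _ = (4 * J ^ 2) ^ k * ∑ u ∈ (Finset.univ : Finset ι).powersetCard k, bs v V u ^ 2 := by
          rw [Finset.mul_sum]
      _ ≤ _ := mul_le_mul_of_nonneg_left (sum_bs_sq_le_mom v V k) (by positivity)
  have h2 := mul_le_mul_of_nonneg_left (mom_le hσ hκ hκ2 h k hk)
    (by positivity : (0 : ℝ) ≤ (4 * (J : ℝ) ^ 2) ^ k)
  have h3 := h1.trans h2
  have h4 : (4 * (J : ℝ) ^ 2) ^ k * (2 * ((V.card : ℝ) ^ 2 * κ ^ k +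
      V.card * (Fintype.card ι : ℝ) ^ k)) = (2 * (4 * J ^ 2) ^ k *
      (κ ^ k + (Fintype.card ι : ℝ) ^ k / V.card)) * (V.card : ℝ) ^ 2 := by
    field_simp
  rw [h4] at h3
  exact le_of_mul_le_mul_right h3 (by positivity)

end Pool.Agent.Lib.MP_fa373d_co.SE
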