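import Pool.Agent.Lib.MP_fa373d_co.SE.Final
import Pool.Agent.Lib.MP_fa373d_co.ExpH

/-!
# The gain of `2^(n^(1/40))` for all `r ≥ 3`
-/

namespace Pool.Agent.Lib.MP_fa373d_co.SE

open Finset Filter

/-- Taking the fortieth root. -/
theorem root_le (n : ℕ) (q : ℕ) (h : n ≤ 2 ^ (40 * (q + 1))) :
    (n : ℝ) ^ (1 / 40 : ℝ) ≤ 2 ^ (q + 1) := by
  have h5 : (n : ℝ) ≤ ((2 : ℝ) ^ (q + 1)) ^ (40 : ℝ) := by
    have h6 : ((2 : ℝ) ^ (q + 1)) ^ (40 : ℝ) = (2 : ℝ) ^ (40 * (q + 1)) := by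
      rw [show (40 : ℝ) = ((40 : ℕ) : ℝ) by norm_num, Real.rpow_natCast, ← pow_mul,
        mul_comm]
    rw [h6]
    have h7 : ((n : ℕ) : ℝ) ≤ ((2 ^ (40 * (q + 1)) : ℕ) : ℝ) := Nat.cast_le.2 h
    rw [Nat.cast_pow] at h7
    exact h7
  have hpos : (0 : ℝ) ≤ (2 : ℝ) ^ (q + 1) := pow_nonneg (by norm_num) _
  calc (n : ℝ) ^ (1 / 40 : ℝ) ≤ (((2 : ℝ) ^ (q + 1)) ^ (40 : ℝ)) ^ (1 / 40 : ℝ) :=
        Real.rpow_le_rpow (Nat.cast_nonneg _) h5 (by norm_num)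
    _ = 2 ^ (q + 1) := by
        rw [← Real.rpow_mul hpos]
        norm_num

/-- From a bound of the square to a bound. -/
theorem of_sq (x : ℝ) (hx : 0 ≤ x) (n q : ℕ) (h : x ^ 2 * 2 ^ (4 * 2 ^ q) ≤ 2 ^ n) :
    x ≤ 2 ^ ((n : ℝ) / 2 - 2 ^ (q + 1)) := by
  have h7 : ((2 : ℝ) ^ ((n : ℝ) / 2 - 2 ^ (q + 1))) ^ 2 * 2 ^ (4 * 2 ^ q) = 2 ^ n := by
    rw [← Real.rpow_natCast _ 2, ← Real.rpow_mul (by norm_num), ← Real.rpow_natCast 2 (4 * 2 ^ q),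
      ← Real.rpow_add (by norm_num), ← Real.rpow_natCast 2 n]
    congr 1
    push_cast
    ring
  rw [← h7] at h
  have h8 : x ^ 2 ≤ ((2 : ℝ) ^ ((n : ℝ) / 2 - 2 ^ (q + 1))) ^ 2 :=
    le_of_mul_le_mul_right h (by positivity)
  exact (pow_le_pow_iff_left₀ hx (by positivity) (by norm_num)).1 h8

/-- The bound for `r = 3`, with a variable in place of `2400`. -/
theorem gff_three_aux (e : ℕ) (he : 2400 ≤ e) (n : ℕ) (hn : 2 ^ e ≤ n) :
    (gff 3 n : ℝ) ≤ 2 ^ ((n : ℝ) / 2 - (n : ℝ) ^ (1 / 40 : ℝ)) := by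
  obtain ⟨F, hF, hFc⟩ := (gff_isGreatest 3 n (by norm_num)).1
  have hn0 : n ≠ 0 := by
    have h : 0 < 2 ^ e := by positivity
    omega
  obtain ⟨q, hq⟩ : ∃ q, q = Nat.log 2 n / 40 := ⟨_, rfl⟩
  have hlog : e ≤ Nat.log 2 n := Nat.le_log_of_pow_le (by norm_num) hn
  have hq60 : 60 ≤ q := by omega
  have h1 : 2 ^ (40 * q) ≤ n := by
    refine le_trans (Nat.pow_le_pow_right (by norm_num) ?_) (Nat.pow_log_le_self 2 hn0)
    omega
  have h2 : n < 2 ^ (40 * (q + 1)) := by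
    refine lt_of_lt_of_le (Nat.lt_pow_succ_log_self (by norm_num : 1 < 2) n) ?_
    refine Nat.pow_le_pow_right (by norm_num) ?_
    change Nat.log 2 n + 1 ≤ _
    omega
  have h3 := core q n hq60 h1 h2 F (FF_of_focalFree (k := 2) hF)
  rw [hFc] at h3
  have h4 := root_le n q h2.le
  have h6 : ((gff 3 n : ℕ) : ℝ) ^ 2 * 2 ^ (4 * 2 ^ q) ≤ 2 ^ n := by
    have h7 : (((gff 3 n) ^ 2 * 2 ^ (4 * 2 ^ q) : ℕ) : ℝ) ≤ ((2 ^ n : ℕ) : ℝ) := Nat.cast_le.2 h3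
    rw [Nat.cast_mul, Nat.cast_pow, Nat.cast_pow, Nat.cast_pow] at h7
    exact h7
  refine (of_sq _ (Nat.cast_nonneg _) n q h6).trans ?_
  exact Real.rpow_le_rpow_of_exponent_le (by norm_num) (by linarith)

/-- The bound for `r = 3`. -/
theorem gff_three (n : ℕ) (hn : 2 ^ 2400 ≤ n) :
    (gff 3 n : ℝ) ≤ 2 ^ ((n : ℝ) / 2 - (n : ℝ) ^ (1 / 40 : ℝ)) :=
  gff_three_aux 2400 le_rfl n hn

/-- `n^(1/40)` is smaller than any multiple of `n`. -/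
theorem eventually_small (ε c : ℝ) (hε : 0 < ε) :
    ∃ n0 : ℕ, ∀ n ≥ n0, c + (n : ℝ) ^ (1 / 40 : ℝ) ≤ ε * n := by
  have h1 : Tendsto (fun n : ℕ => c * (n : ℝ)⁻¹ + (n : ℝ) ^ (-(39 / 40) : ℝ)) atTop (nhds 0) := by
    have h2 : Tendsto (fun n : ℕ => (n : ℝ)⁻¹) atTop (nhds 0) :=
      tendsto_inv_atTop_zero.comp tendsto_natCast_atTop_atTop
    have h3 : Tendsto (fun n : ℕ => (n : ℝ) ^ (-(39 / 40) : ℝ)) atTop (nhds 0) :=
      (tendsto_rpow_neg_atTop (by norm_num)).comp tendsto_natCast_atTop_atTop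
    have h4 := (h2.const_mul c).add h3
    simpa using h4
  have h2 := (h1.eventually (eventually_lt_nhds hε)).and (eventually_ge_atTop 1)
  obtain ⟨n0, hn0⟩ := eventually_atTop.1 h2
  refine ⟨n0, fun n hn => ?_⟩
  obtain ⟨h3, h4⟩ := hn0 n hn
  have hnpos : (0 : ℝ) < n := by exact_mod_cast h4
  have h5 : (n : ℝ) ^ (1 / 40 : ℝ) = (n : ℝ) ^ (-(39 / 40) : ℝ) * n := by
    rw [← Real.rpow_add_one hnpos.ne']
    norm_num
  rw [h5]
  have h6 : c = c * (n : ℝ)⁻¹ * n := by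
    field_simp
  calc c + (n : ℝ) ^ (-(39 / 40) : ℝ) * n
      = (c * (n : ℝ)⁻¹ + (n : ℝ) ^ (-(39 / 40) : ℝ)) * n := by
        rw [add_mul, ← h6]
    _ ≤ ε * n := mul_le_mul_of_nonneg_right h3.le hnpos.le

/-- The bound for all `r ≥ 3`. -/
theorem gff_all (r : ℕ) (hr : 3 ≤ r) : ∃ n0 : ℕ, ∀ n ≥ n0,
    (gff r n : ℝ) ≤ 2 ^ (((r : ℝ) - 2) * n / ((r : ℝ) - 1) - (n : ℝ) ^ (1 / 40 : ℝ)) := by
  rcases Nat.eq_or_lt_of_le hr with h | h
  · subst h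
    refine ⟨2 ^ 2400, fun n hn => ?_⟩
    have h1 := gff_three n hn
    have h2 : (((3 : ℕ) : ℝ) - 2) * n / (((3 : ℕ) : ℝ) - 1) = n / 2 := by
      push_cast
      ring
    rw [h2]
    exact h1
  · obtain ⟨h1, ⟨C, hC, h2⟩, _⟩ := Exp.all_bounds r (by omega) (3, 57 / 200) (by simp)
    simp only at h1 h2
    set X := Exp.XX 3 (57 / 200) r with hX
    have hr' : (4 : ℝ) ≤ r := by exact_mod_cast h
    have h4 : X < (r : ℝ) - 1 := by
      rw [hX]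
      unfold Exp.XX
      have h5 : 1 ≤ (r - 1) / 3 := by omega
      have h6 : (1 : ℝ) ≤ (((r - 1) / 3 : ℕ) : ℝ) := by exact_mod_cast h5
      linarith
    have h5 : 0 < 1 / X - 1 / ((r : ℝ) - 1) := by
      have := one_div_lt_one_div_of_lt (by linarith) h4
      linarith
    obtain ⟨n0, hn0⟩ := eventually_small (1 / X - 1 / ((r : ℝ) - 1)) (Real.logb 2 C) h5
    refine ⟨n0, fun n hn => ?_⟩
    have h6 := hn0 n hn
    refine (h2 n).trans ?_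
    have h7 : C = 2 ^ (Real.logb 2 C) := (Real.rpow_logb (by norm_num) (by norm_num) hC).symm
    conv_lhs => rw [h7]
    rw [← Real.rpow_add (by norm_num)]
    refine Real.rpow_le_rpow_of_exponent_le (by norm_num) ?_
    have h8 : ((r : ℝ) - 2) * n / ((r : ℝ) - 1) = (1 - 1 / ((r : ℝ) - 1)) * n := by
      have : (r : ℝ) - 1 ≠ 0 := by linarith
      field_simp
      ring
    rw [h8]
    linarith

/-- The known upper bound is not tight by any polynomial factor. -/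
theorem ratio (r : ℕ) (hr : 3 ≤ r) (A : ℝ) :
    Tendsto (fun n : ℕ => (n : ℝ) ^ A * ((gff r n : ℝ)
      / (((r : ℝ) - 1) * 2 ^ ⌈((r : ℝ) - 2) * n / ((r : ℝ) - 1)⌉₊))) atTop (nhds 0) := by
  obtain ⟨n0, hn0⟩ := gff_all r hr
  have hr' : (3 : ℝ) ≤ r := by exact_mod_cast hr
  have hlim : Tendsto (fun n : ℕ => (n : ℝ) ^ A * 2 ^ (-((n : ℝ) ^ (1 / 40 : ℝ)))) atTop
      (nhds 0) := by
    have h1 : Tendsto (fun x : ℝ => x ^ (40 * A) * Real.exp (-(Real.log 2) * x)) atTop (nhds 0) :=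
      tendsto_rpow_mul_exp_neg_mul_atTop_nhds_zero (40 * A) (Real.log 2)
        (Real.log_pos (by norm_num))
    have h2 : Tendsto (fun n : ℕ => (n : ℝ) ^ (1 / 40 : ℝ)) atTop atTop :=
      (tendsto_rpow_atTop (by norm_num)).comp tendsto_natCast_atTop_atTop
    refine (h1.comp h2).congr fun n => ?_
    simp only [Function.comp]
    rw [← Real.rpow_mul (Nat.cast_nonneg _), Real.rpow_def_of_pos (by norm_num : (0 : ℝ) < 2)]
    congr 2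
    · ring
    · ring
  apply squeeze_zero' _ _ hlim
  · filter_upwards with n
    have : (0 : ℝ) ≤ (r : ℝ) - 1 := by linarith
    positivity
  · filter_upwards [eventually_ge_atTop n0] with n hn
    refine mul_le_mul_of_nonneg_left ?_ (by positivity)
    have h1 := hn0 n hn
    have h3 : (2 : ℝ) ^ (((r : ℝ) - 2) * n / ((r : ℝ) - 1))
        ≤ 2 ^ ⌈((r : ℝ) - 2) * n / ((r : ℝ) - 1)⌉₊ := by
      rw [← Real.rpow_natCast]
      exact Real.rpow_le_rpow_of_exponent_le (by norm_num) (Nat.le_ceil _)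
    have h4 : (0 : ℝ) < 2 ^ ⌈((r : ℝ) - 2) * n / ((r : ℝ) - 1)⌉₊ := by positivity
    have h5 : (1 : ℝ) ≤ (r : ℝ) - 1 := by linarith
    rw [div_le_iff₀ (by positivity)]
    rw [Real.rpow_sub (by norm_num), div_eq_mul_inv, ← Real.rpow_neg (by norm_num)] at h1
    have h6 : (0 : ℝ) < 2 ^ (-((n : ℝ) ^ (1 / 40 : ℝ))) := by positivity
    calc (gff r n : ℝ) ≤ _ := h1
      _ ≤ 2 ^ ⌈((r : ℝ) - 2) * n / ((r : ℝ) - 1)⌉₊ * 2 ^ (-((n : ℝ) ^ (1 / 40 : ℝ))) :=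
          mul_le_mul_of_nonneg_right h3 h6.le
      _ = 2 ^ (-((n : ℝ) ^ (1 / 40 : ℝ))) * (1 * 2 ^ ⌈((r : ℝ) - 2) * n / ((r : ℝ) - 1)⌉₊) := by
          ring
      _ ≤ _ := by
          refine mul_le_mul_of_nonneg_left ?_ h6.le
          exact mul_le_mul_of_nonneg_right h5 h4.le

end Pool.Agent.Lib.MP_fa373d_co.SE
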