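import Pool.Agent.Lib.MP_fa373d_co.SE.Defs

/-!
# Many isolating sets: Cauchy-Schwarz over spheres
-/

namespace Pool.Agent.Lib.MP_fa373d_co.SE

open Finset

set_option linter.unusedSectionVars false

variable {α ι : Type} [Fintype ι] [DecidableEq ι]

/-- The coordinates where two vectors differ. -/
def df (x z : ι → Bool) : Finset ι := Finset.univ.filter (fun i => x i ≠ z i)

theorem mem_df {x z : ι → Bool} {i : ι} : i ∈ df x z ↔ x i ≠ z i := by
  simp [df]

theorem df_inj {x z z' : ι → Bool} (h : df x z = df x z') : z = z' := by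
  funext i
  have h1 : (x i ≠ z i) ↔ (x i ≠ z' i) := by
    rw [← mem_df, ← mem_df, h]
  cases hx : x i <;> cases hz : z i <;> cases hz' : z' i <;> simp_all

theorem df_inj' {x x' z : ι → Bool} (h : df x z = df x' z) : x = x' := by
  funext i
  have h1 : (x i ≠ z i) ↔ (x' i ≠ z i) := by
    rw [← mem_df, ← mem_df, h]
  cases hx : x i <;> cases hx' : x' i <;> cases hz : z i <;> simp_all

/-- The number of vectors on a sphere. -/
theorem card_sphere (x : ι → Bool) (ρ : ℕ) :
    ((Finset.univ : Finset (ι → Bool)).filter (fun z => (df x z).card = ρ)).card =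
      (Fintype.card ι).choose ρ := by
  rw [← Finset.card_univ (α := ι), ← Finset.card_powersetCard]
  refine Finset.card_bij (fun z _ => df x z) ?_ ?_ ?_
  · intro z hz
    rw [Finset.mem_powersetCard]
    exact ⟨Finset.subset_univ _, (Finset.mem_filter.1 hz).2⟩
  · intro z _ z' _ h
    exact df_inj h
  · intro A hA
    rw [Finset.mem_powersetCard] at hA
    have hd : df x (fun i => if i ∈ A then !(x i) else x i) = A := by
      ext i
      rw [mem_df]
      by_cases hi : i ∈ A
      · simp [hi]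
      · simp [hi]
    exact ⟨_, Finset.mem_filter.2 ⟨Finset.mem_univ _, by rw [hd]; exact hA.2⟩, hd⟩

theorem choose_two_le (t ρ : ℕ) : t.choose (2 * ρ) ≤ t.choose ρ ^ 2 := by
  rcases Nat.lt_or_ge t (2 * ρ) with h | h
  · rw [Nat.choose_eq_zero_of_lt h]
    exact Nat.zero_le _
  · have h1 := Nat.choose_mul (n := t) (k := 2 * ρ) (s := ρ) (by omega)
    have h2 : (t - ρ).choose (2 * ρ - ρ) ≤ t.choose ρ := by
      rw [show 2 * ρ - ρ = ρ by omega]
      exact Nat.choose_le_choose ρ (Nat.sub_le _ _)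
    calc t.choose (2 * ρ) = t.choose (2 * ρ) * 1 := (mul_one _).symm
      _ ≤ t.choose (2 * ρ) * (2 * ρ).choose ρ :=
          Nat.mul_le_mul_left _ (Nat.choose_pos (by omega))
      _ = t.choose ρ * (t - ρ).choose (2 * ρ - ρ) := h1
      _ ≤ t.choose ρ * t.choose ρ := Nat.mul_le_mul_left _ h2
      _ = _ := (pow_two _).symm

theorem Iso.mono {v : α → ι → Bool} {V : Finset α} {x : α} {M M' : Finset ι} (h : Iso v V x M)
    (hM : M ⊆ M') : Iso v V x M' :=
  fun y hy hag => h y hy fun i hi => hag i (hM hi)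

/-- Pairs of sets whose union isolates. -/
theorem card_pairs_le (v : α → ι → Bool) (V : Finset α) (x : α) (ρ : ℕ)
    (hρ : 2 * ρ ≤ Fintype.card ι) (S : Finset (Finset ι × Finset ι))
    (hS : ∀ q ∈ S, q.1.card = ρ ∧ q.2.card = ρ ∧ Iso v V x (q.1 ∪ q.2)) :
    S.card ≤ 16 ^ ρ * NI v V x (2 * ρ) := by
  classical
  have hsub : S ⊆ (IS v V x (2 * ρ)).biUnion fun M => M.powersetCard ρ ×ˢ M.powersetCard ρ := by
    intro q hq
    obtain ⟨h1, h2, h3⟩ := hS q hq
    have h4 : (q.1 ∪ q.2).card ≤ 2 * ρ := (Finset.card_union_le _ _).trans (by omega)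
    obtain ⟨M, hM1, hM2⟩ := Finset.exists_superset_card_eq h4 hρ
    rw [Finset.mem_biUnion]
    refine ⟨M, ?_, ?_⟩
    · unfold IS
      rw [Finset.mem_filter, Finset.mem_powersetCard]
      exact ⟨⟨Finset.subset_univ _, hM2⟩, h3.mono hM1⟩
    · rw [Finset.mem_product, Finset.mem_powersetCard, Finset.mem_powersetCard]
      exact ⟨⟨Finset.subset_union_left.trans hM1, h1⟩, Finset.subset_union_right.trans hM1, h2⟩
  calc S.card ≤ _ := Finset.card_le_card hsub
    _ ≤ _ := Finset.card_biUnion_le
    _ ≤ ∑ _M ∈ IS v V x (2 * ρ), 16 ^ ρ := by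
        refine Finset.sum_le_sum fun M hM => ?_
        have hc : M.card = 2 * ρ := by
          unfold IS at hM
          rw [Finset.mem_filter, Finset.mem_powersetCard] at hM
          exact hM.1.2
        rw [Finset.card_product, Finset.card_powersetCard, hc]
        have h5 := Nat.choose_le_two_pow (2 * ρ) ρ
        calc (2 * ρ).choose ρ * (2 * ρ).choose ρ ≤ 2 ^ (2 * ρ) * 2 ^ (2 * ρ) :=
              Nat.mul_le_mul h5 h5
          _ = 16 ^ ρ := by
              rw [← pow_add, show 2 * ρ + 2 * ρ = 4 * ρ by ring, pow_mul]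
              norm_num
    _ = _ := by
        rw [Finset.sum_const, smul_eq_mul, mul_comm]
        rfl

/-- Many isolating sets. -/
theorem sphere {v : α → ι → Bool} {P : Finset α} {ρ : ℕ} (hρ : 2 * ρ ≤ Fintype.card ι)
    (hinj : ∀ x ∈ P, ∀ y ∈ P, v x = v y → x = y)
    (hP : 2 * 2 ^ Fintype.card ι ≤ P.card * (Fintype.card ι).choose ρ) (W : α → Finset α)
    (hW : ∀ x ∈ P, ∀ y ∈ P, x ≠ y → Iso v (W x) x (df (v x) (v y))) :
    P.card ^ 2 * (Fintype.card ι).choose (2 * ρ) ≤
      2 * 16 ^ ρ * 2 ^ Fintype.card ι * ∑ x ∈ P, NI v (W x) x (2 * ρ) := by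
  classical
  set t := Fintype.card ι with ht
  set C := t.choose ρ with hC
  -- the two sums
  have h1 : ∑ z : ι → Bool, (P.filter (fun x => (df (v x) z).card = ρ)).card = P.card * C := by
    have e : ∀ z : ι → Bool, (P.filter (fun x => (df (v x) z).card = ρ)).card =
        ∑ x ∈ P, if (df (v x) z).card = ρ then 1 else 0 := fun z => Finset.card_filter _ _
    rw [Finset.sum_congr rfl fun z _ => e z, Finset.sum_comm, ← smul_eq_mul, ← Finset.sum_const]
    refine Finset.sum_congr rfl fun x _ => ?_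
    rw [← Finset.card_filter, card_sphere]
  have h2 : ∑ z : ι → Bool, (P.filter (fun x => (df (v x) z).card = ρ)).card ^ 2 ≤
      P.card * C + 16 ^ ρ * ∑ x ∈ P, NI v (W x) x (2 * ρ) := by
    have e : ∀ z : ι → Bool, (P.filter (fun x => (df (v x) z).card = ρ)).card ^ 2 =
        ∑ x ∈ P, if (df (v x) z).card = ρ then
          (P.filter (fun x => (df (v x) z).card = ρ)).card else 0 := by
      intro z
      rw [← Finset.sum_filter, Finset.sum_const, smul_eq_mul, pow_two]
    rw [Finset.sum_congr rfl fun z _ => e z, Finset.sum_comm, Finset.mul_sum, ← smul_eq_mul,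
      ← Finset.sum_const, ← Finset.sum_add_distrib]
    refine Finset.sum_le_sum fun x hx => ?_
    -- pairs
    let S : Finset (α × (ι → Bool)) := (P ×ˢ (Finset.univ : Finset (ι → Bool))).filter
      (fun q => (df (v x) q.2).card = ρ ∧ (df (v q.1) q.2).card = ρ)
    have hS : ∑ z : ι → Bool, (if (df (v x) z).card = ρ then
        (P.filter (fun x => (df (v x) z).card = ρ)).card else 0) = S.card := by
      rw [Finset.card_filter, Finset.sum_product_right]
      refine Finset.sum_congr rfl fun z _ => ?_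
      split_ifs with h
      · rw [Finset.card_filter]
        refine Finset.sum_congr rfl fun y _ => ?_
        simp [h]
      · symm
        refine Finset.sum_eq_zero fun y _ => ?_
        simp [h]
    rw [hS]
    have hsplit : S.card = (S.filter (fun q => q.1 = x)).card +
        (S.filter (fun q => q.1 ≠ x)).card := (Finset.card_filter_add_card_filter_not _).symm
    rw [hsplit]
    refine add_le_add ?_ ?_
    · rw [hC, ht, ← card_sphere (v x) ρ]
      refine Finset.card_le_card_of_injOn (fun q => q.2) ?_ ?_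
      · intro q hq
        rw [Finset.mem_coe, Finset.mem_filter, Finset.mem_filter] at hq
        rw [Finset.mem_coe, Finset.mem_filter]
        exact ⟨Finset.mem_univ _, hq.1.2.1⟩
      · intro q hq q' hq' h
        rw [Finset.mem_coe, Finset.mem_filter] at hq hq'
        exact Prod.ext (hq.2.trans hq'.2.symm) h
    · have hinjOn : Set.InjOn (fun q : α × (ι → Bool) => (df (v x) q.2, df (v q.1) q.2))
          (S.filter (fun q => q.1 ≠ x)) := by
        intro q hq q' hq' h
        rw [Finset.mem_coe, Finset.mem_filter, Finset.mem_filter, Finset.mem_product] at hq hq'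
        have e1 : q.2 = q'.2 := df_inj (congrArg Prod.fst h)
        have e2 : df (v q.1) q.2 = df (v q'.1) q'.2 := congrArg Prod.snd h
        rw [← e1] at e2
        exact Prod.ext (hinj _ hq.1.1.1 _ hq'.1.1.1 (df_inj' e2)) e1
      rw [← Finset.card_image_of_injOn hinjOn]
      refine card_pairs_le v (W x) x ρ hρ _ ?_
      intro q hq
      rw [Finset.mem_image] at hq
      obtain ⟨p, hp, rfl⟩ := hq
      rw [Finset.mem_filter, Finset.mem_filter, Finset.mem_product] at hp
      refine ⟨hp.1.2.1, hp.1.2.2, ?_⟩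
      refine (hW x hx p.1 hp.1.1.1 (fun e => hp.2 e.symm)).mono ?_
      intro i hi
      rw [mem_df] at hi
      rw [Finset.mem_union, mem_df, mem_df]
      by_contra hcon
      push Not at hcon
      exact hi (hcon.1.trans hcon.2.symm)
  have h3 := sq_sum_le_card_mul_sum_sq (s := (Finset.univ : Finset (ι → Bool)))
    (f := fun z => (((P.filter (fun x => (df (v x) z).card = ρ)).card : ℕ) : ℝ))
  have h4 : ((P.card * C : ℕ) : ℝ) ^ 2 ≤
      (2 : ℝ) ^ t * ((P.card * C + 16 ^ ρ * ∑ x ∈ P, NI v (W x) x (2 * ρ) : ℕ) : ℝ) := by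
    have e1 : ∑ z : ι → Bool, (((P.filter (fun x => (df (v x) z).card = ρ)).card : ℕ) : ℝ) =
        ((P.card * C : ℕ) : ℝ) := by
      rw [← h1]
      push_cast
      rfl
    rw [e1] at h3
    refine h3.trans ?_
    rw [Finset.card_univ, Fintype.card_fun, Fintype.card_bool, ← ht]
    push_cast
    refine mul_le_mul_of_nonneg_left ?_ (by positivity)
    exact_mod_cast h2
  have h5 : (P.card * C) ^ 2 ≤ 2 ^ t * (P.card * C + 16 ^ ρ * ∑ x ∈ P, NI v (W x) x (2 * ρ)) := by
    exact_mod_cast h4
  have h6 := choose_two_le t ρ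
  have h7 : P.card ^ 2 * t.choose (2 * ρ) ≤ (P.card * C) ^ 2 := by
    rw [mul_pow]
    exact Nat.mul_le_mul_left _ h6
  have h8 : 2 * (2 ^ t * (P.card * C)) ≤ (P.card * C) ^ 2 := by
    rw [pow_two, ← mul_assoc]
    exact Nat.mul_le_mul_right _ hP
  have h9 : (P.card * C) ^ 2 ≤ 2 * (2 ^ t * (16 ^ ρ * ∑ x ∈ P, NI v (W x) x (2 * ρ))) := by
    rw [mul_add] at h5
    omega
  calc P.card ^ 2 * t.choose (2 * ρ) ≤ (P.card * C) ^ 2 := h7
    _ ≤ _ := h9
    _ = _ := by ring

end Pool.Agent.Lib.MP_fa373d_co.SE
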