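import Pool.Agent.Lib.MP_fa373d_co.SE.Main
import Pool.Agent.Lib.MP_fa373d_co.SE.Sphere
import Pool.Agent.Lib.MP_fa373d_co.SE.Bad

/-!
# The static bound
-/

namespace Pool.Agent.Lib.MP_fa373d_co.SE

open Finset

set_option linter.unusedSectionVars false

variable {α ι : Type} [Fintype ι] [DecidableEq ι]

theorem ip_eq (v : α → ι → Bool) (x y : α) :
    ip v x y = Fintype.card ι - 2 * ((df (v x) (v y)).card : ℝ) := by
  unfold ip df
  have h1 : ∀ i, sg (v x i) * sg (v y i) = 1 - 2 * (if v x i ≠ v y i then 1 else 0) := by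
    intro i
    rw [sg_mul_eq]
    by_cases h : v x i = v y i
    · simp [h]
    · simp only [ne_eq, h, not_false_eq_true, if_true]
      norm_num
  rw [Finset.sum_congr rfl fun i _ => h1 i, Finset.sum_sub_distrib, ← Finset.mul_sum,
    Finset.sum_boole]
  simp

private theorem st_arith {p p3 g G φ K A : ℝ} (hp : 0 < p) (hG : 0 < G) (hφ : 0 < φ)
    (hK : 0 ≤ K) (hA : 0 ≤ A) (h1 : p3 ^ 2 ≤ 2 * A * (g * (K / φ))) (h2 : g * G ≤ 2 * p)
    (h3 : p ^ 2 ≤ 4 * p3 ^ 2) : p * G * φ ≤ 16 * A * K := by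
  have h11 : p ^ 2 * (G * φ) ≤ 16 * A * K * p := by
    calc p ^ 2 * (G * φ) ≤ (4 * p3 ^ 2) * (G * φ) :=
          mul_le_mul_of_nonneg_right h3 (by positivity)
      _ ≤ (4 * (2 * A * (g * (K / φ)))) * (G * φ) := by
          refine mul_le_mul_of_nonneg_right ?_ (by positivity)
          linarith
      _ = 8 * A * K * (g * G) := by
          field_simp
          ring
      _ ≤ 8 * A * K * (2 * p) := mul_le_mul_of_nonneg_left h2 (by positivity)
      _ = _ := by ring
  have h12 : p * (p * G * φ) ≤ p * (16 * A * K) := by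
    calc p * (p * G * φ) = p ^ 2 * (G * φ) := by ring
      _ ≤ _ := h11
      _ = _ := by ring
  exact le_of_mul_le_mul_left h12 hp

private theorem st_cards {p p2 p12 b p1 : ℕ} (h1 : p12 ≤ b) (h3 : p1 = p2 + p12)
    (h4 : p = p1 + b) (hb : (b : ℝ) ≤ p / 8) : 3 / 4 * (p : ℝ) ≤ p2 := by
  have h5 : p ≤ p2 + b + b := by omega
  have h6 : (p : ℝ) ≤ p2 + b + b := by exact_mod_cast h5
  linarith

/-- The static bound. -/
theorem static {γ : Type} [DecidableEq α] [DecidableEq γ] {v : α → ι → Bool} {grp : α → γ}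
    {P : Finset α} {ρ a : ℕ} {σ κ b G φ : ℝ} (ha : 1 ≤ a) (hρ : 1 ≤ ρ) (ht : 4 * ρ ≤ Fintype.card ι)
    (hσ : 0 ≤ σ) (hκ : σ ≤ κ) (hκ2 : σ * Fintype.card ι ≤ κ ^ 2) (hb : 0 < b)
    (hb1 : 32 * ((2 * ρ : ℕ) : ℝ) ^ 2 * κ ≤ b ^ a) (hb2 : 8 * ((2 * ρ : ℕ) : ℝ) * b ^ (a + 1) ≤
      Fintype.card ι) (hG : 1 < G)
    (hgrp : ∀ x ∈ P, G ≤ ((P.filter (fun y => grp y = grp x)).card : ℝ))
    (hiso : ∀ x ∈ P, ∀ x' ∈ P, ∀ y ∈ P, grp x = grp x' → x ≠ x' → x ≠ y →
      ∃ i, v x i ≠ v x' i ∧ v x i ≠ v y i)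
    (hbad : (Fintype.card ι + 1) * (2 ^ Fintype.card ι *
      Real.exp (-(σ ^ 2 / (2 * Fintype.card ι)))) ≤ (P.card : ℝ) / 8)
    (hφ : 0 < φ) (hφ2 : 2 ^ (2 * ρ) * φ ^ a ≤ G / 8)
    (hsph : 4 * 2 ^ Fintype.card ι ≤ P.card * (Fintype.card ι).choose ρ) :
    (P.card : ℝ) * G * φ ≤ 16 * 16 ^ ρ * 2 ^ Fintype.card ι *
      (16 * (16 * ((2 * ρ : ℕ) : ℝ) ^ 3) ^ (2 * ρ)) := by
  classical
  set t := Fintype.card ι with ht'
  set K : ℝ := 16 * (16 * ((2 * ρ : ℕ) : ℝ) ^ 3) ^ (2 * ρ) with hK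
  have hK0 : 0 ≤ K := by positivity
  have ht0 : 0 < t := by omega
  -- bad elements
  let B : Finset α := P.filter (fun x => ∃ x' ∈ P, grp x = grp x' ∧ x ≠ x' ∧ σ < ip v x x')
  have hBP : B ⊆ P := Finset.filter_subset _ _
  have hBc : (B.card : ℝ) ≤ P.card / 8 := by
    refine (bad_le (v := v) (P := P) (B := B) hσ ht0 hBP ?_).trans hbad
    intro x hx
    obtain ⟨hxP, x', hx'P, hg, hne, hip⟩ := Finset.mem_filter.1 hx
    refine ⟨df (v x) (v x'), ?_, ?_⟩
    · intro y hy hag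
      by_contra hyx
      obtain ⟨i, hi1, hi2⟩ := hiso x hxP x' hx'P y hy hg hne (fun e => hyx e.symm)
      exact hi2 (hag i (mem_df.2 hi1)).symm
    · rw [ip_eq] at hip
      linarith
  let P₁ : Finset α := P \ B
  let V : γ → Finset α := fun g => P₁.filter (fun y => grp y = g)
  have hVP : ∀ g, V g ⊆ P := fun g x hx =>
    (Finset.mem_sdiff.1 (Finset.mem_filter.1 hx).1).1
  have hSp : ∀ g, Sp v (V g) σ := by
    intro g x hx y hy hxy
    rw [Finset.mem_filter] at hx hy
    have hx1 := Finset.mem_sdiff.1 hx.1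
    have hy1 := Finset.mem_sdiff.1 hy.1
    by_contra hcon
    push Not at hcon
    exact hx1.2 (Finset.mem_filter.2 ⟨hx1.1, y, hy1.1, hx.2.trans hy.2.symm, hxy, hcon⟩)
  let P₂ : Finset α := P₁.filter (fun x => G / 2 ≤ ((V (grp x)).card : ℝ))
  -- few elements in small groups
  have hP2 : 3 / 4 * (P.card : ℝ) ≤ P₂.card := by
    have h1 : ((P₁ \ P₂).card : ℕ) ≤ B.card := by
      rw [Finset.card_eq_sum_card_fiberwise (f := grp) (s := P₁ \ P₂) (t := (P.image grp))
          (fun x hx => Finset.mem_coe.2 (Finset.mem_image_of_mem _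
            ((Finset.mem_sdiff.1 (Finset.mem_sdiff.1 (Finset.mem_coe.1 hx)).1).1))),
        Finset.card_eq_sum_card_fiberwise (f := grp) (s := B) (t := (P.image grp))
          (fun x hx => Finset.mem_coe.2 (Finset.mem_image_of_mem _ (hBP (Finset.mem_coe.1 hx))))]
      refine Finset.sum_le_sum fun g _ => ?_
      rcases Finset.eq_empty_or_nonempty ((P₁ \ P₂).filter (fun x => grp x = g)) with h | ⟨x, hx⟩
      · rw [h, Finset.card_empty]
        exact Nat.zero_le _
      · rw [Finset.mem_filter, Finset.mem_sdiff] at hx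
        obtain ⟨⟨hx1, hx2⟩, hx3⟩ := hx
        have hxP : x ∈ P := (Finset.mem_sdiff.1 hx1).1
        have h2 : ((V (grp x)).card : ℝ) < G / 2 := by
          by_contra hcon
          push Not at hcon
          exact hx2 (Finset.mem_filter.2 ⟨hx1, hcon⟩)
        have h3 := hgrp x hxP
        have h4 : (P.filter (fun y => grp y = grp x)).card = (V (grp x)).card +
            (B.filter (fun y => grp y = grp x)).card := by
          have h5 : P.filter (fun y => grp y = grp x) = V (grp x) ∪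
              B.filter (fun y => grp y = grp x) := by
            ext y
            simp only [V, P₁, Finset.mem_union, Finset.mem_filter, Finset.mem_sdiff]
            constructor
            · rintro ⟨h6, h7⟩
              by_cases h8 : y ∈ B
              · exact Or.inr ⟨h8, h7⟩
              · exact Or.inl ⟨⟨h6, h8⟩, h7⟩
            · rintro (⟨⟨h6, _⟩, h7⟩ | ⟨h6, h7⟩)
              · exact ⟨h6, h7⟩
              · exact ⟨hBP h6, h7⟩
          rw [h5, Finset.card_union_of_disjoint]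
          rw [Finset.disjoint_left]
          intro y hy hy'
          rw [Finset.mem_filter] at hy hy'
          exact (Finset.mem_sdiff.1 hy.1).2 hy'.1
        rw [h4] at h3
        push_cast at h3
        have h6 : ((P₁ \ P₂).filter (fun x => grp x = g)).card ≤ (V (grp x)).card := by
          refine Finset.card_le_card ?_
          intro y hy
          rw [Finset.mem_filter, Finset.mem_sdiff] at hy
          exact Finset.mem_filter.2 ⟨hy.1.1, hy.2.trans hx3.symm⟩
        have h7 : ((V (grp x)).card : ℝ) ≤ ((B.filter (fun y => grp y = grp x)).card : ℝ) := by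
          linarith
        rw [← hx3]
        rw [← hx3] at h6
        exact h6.trans (by exact_mod_cast h7)
    have h3 : P₁.card = P₂.card + (P₁ \ P₂).card :=
      (Nat.add_sub_cancel' (Finset.card_le_card (Finset.filter_subset _ _))).symm.trans
        (congrArg (P₂.card + ·) (Finset.card_sdiff_of_subset (Finset.filter_subset _ _)).symm)
    have h4 : P.card = P₁.card + B.card :=
      (Nat.sub_add_cancel (Finset.card_le_card hBP)).symm.trans
        (congrArg (· + B.card) (Finset.card_sdiff_of_subset hBP).symm)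
    exact st_cards h1 h3 h4 hBc
  -- exceptional elements
  have hJ : 1 ≤ 2 * ρ := by omega
  have hmain : ∀ g, ∃ E ⊆ V g, (E.card : ℝ) ≤ 2 ^ (2 * ρ) * φ ^ a ∧
      ∑ x ∈ V g \ E, (NI v (V g) x (2 * ρ) : ℝ) ≤ (t.choose (2 * ρ) : ℝ) * (K / φ) := fun g =>
    main ha hJ (by omega) hσ hκ hκ2 hb hb1 hb2 (2 * ρ) le_rfl (V g) (hSp g) φ hφ
  choose E hE1 hE2 hE3 using hmain
  let Γ : Finset γ := P₂.image grp
  have hfib : ∀ g ∈ Γ, P₂.filter (fun x => grp x = g) = V g := by
    intro g hg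
    obtain ⟨x, hx, rfl⟩ := Finset.mem_image.1 hg
    rw [Finset.mem_filter] at hx
    ext y
    simp only [Finset.mem_filter, P₂, V]
    constructor
    · rintro ⟨⟨h1, _⟩, h2⟩
      exact ⟨h1, h2⟩
    · rintro ⟨h1, h2⟩
      refine ⟨⟨h1, ?_⟩, h2⟩
      rw [h2]
      exact hx.2
  have hfibc : ∀ g ∈ Γ, G / 2 ≤ ((V g).card : ℝ) := by
    intro g hg
    obtain ⟨x, hx, rfl⟩ := Finset.mem_image.1 hg
    exact (Finset.mem_filter.1 hx).2
  have hsum : (P₂.card : ℝ) = ∑ g ∈ Γ, ((V g).card : ℝ) := by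
    have h1 := Finset.card_eq_sum_card_fiberwise (f := grp) (s := P₂) (t := Γ)
      (fun x hx => Finset.mem_coe.2 (Finset.mem_image_of_mem _ (Finset.mem_coe.1 hx)))
    rw [h1]
    push_cast
    exact Finset.sum_congr rfl fun g hg => by rw [hfib g hg]
  have hΓ : (Γ.card : ℝ) * (G / 2) ≤ P₂.card := by
    rw [hsum, ← nsmul_eq_mul, ← Finset.sum_const]
    exact Finset.sum_le_sum hfibc
  let P₃ : Finset α := P₂.filter (fun x => x ∉ E (grp x))
  have hP3 : 3 / 4 * (P₂.card : ℝ) ≤ P₃.card := by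
    have h1 : (P₂.card : ℝ) ≤ P₃.card + ∑ g ∈ Γ, ((E g).card : ℝ) := by
      have h2 : P₂ ⊆ P₃ ∪ Γ.biUnion E := by
        intro x hx
        rw [Finset.mem_union, Finset.mem_biUnion]
        by_cases h : x ∈ E (grp x)
        · exact Or.inr ⟨grp x, Finset.mem_image_of_mem _ hx, h⟩
        · exact Or.inl (Finset.mem_filter.2 ⟨hx, h⟩)
      have h3 : P₂.card ≤ P₃.card + ∑ g ∈ Γ, (E g).card :=
        (Finset.card_le_card h2).trans ((Finset.card_union_le _ _).trans
          (Nat.add_le_add_left Finset.card_biUnion_le _))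
      exact_mod_cast h3
    have h2 : ∑ g ∈ Γ, ((E g).card : ℝ) ≤ Γ.card * (G / 8) := by
      rw [← nsmul_eq_mul, ← Finset.sum_const]
      exact Finset.sum_le_sum fun g _ => (hE2 g).trans hφ2
    linarith
  -- the sum of the numbers of isolating sets
  let W : α → Finset α := fun x => V (grp x)
  have hNI : ((∑ x ∈ P₃, NI v (W x) x (2 * ρ) : ℕ) : ℝ) ≤
      Γ.card * ((t.choose (2 * ρ) : ℝ) * (K / φ)) := by
    push_cast
    have h1 : ∑ x ∈ P₃, (NI v (W x) x (2 * ρ) : ℝ) ≤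
        ∑ g ∈ Γ, ∑ x ∈ V g \ E g, (NI v (V g) x (2 * ρ) : ℝ) := by
      have hmaps : ∀ x ∈ P₃, grp x ∈ Γ := fun x hx =>
        Finset.mem_image_of_mem _ (Finset.mem_filter.1 hx).1
      rw [← Finset.sum_fiberwise_of_maps_to hmaps]
      refine Finset.sum_le_sum fun g hg => ?_
      calc ∑ x ∈ P₃ with grp x = g, (NI v (W x) x (2 * ρ) : ℝ)
          = ∑ x ∈ P₃ with grp x = g, (NI v (V g) x (2 * ρ) : ℝ) := by
            refine Finset.sum_congr rfl fun x hx => ?_
            have : W x = V g := by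
              change V (grp x) = V g
              rw [(Finset.mem_filter.1 hx).2]
            rw [this]
        _ ≤ _ := by
            refine Finset.sum_le_sum_of_subset_of_nonneg ?_ fun _ _ _ => Nat.cast_nonneg _
            intro x hx
            rw [Finset.mem_filter, Finset.mem_filter] at hx
            obtain ⟨⟨h2, h3⟩, h4⟩ := hx
            rw [h4] at h3
            rw [Finset.mem_sdiff, ← hfib g hg, Finset.mem_filter]
            exact ⟨⟨h2, h4⟩, h3⟩
    refine h1.trans ?_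
    rw [← nsmul_eq_mul, ← Finset.sum_const]
    exact Finset.sum_le_sum fun g _ => hE3 g
  have hP3P : P₃ ⊆ P := fun x hx =>
    (Finset.mem_sdiff.1 (Finset.mem_filter.1 (Finset.mem_filter.1 hx).1).1).1
  have hinj : ∀ x ∈ P₃, ∀ y ∈ P₃, v x = v y → x = y := by
    intro x hx y hy hxy
    by_contra hne
    have h1 := hgrp x (hP3P hx)
    have h2 : 1 < (P.filter (fun y => grp y = grp x)).card := by
      have : (1 : ℝ) < ((P.filter (fun y => grp y = grp x)).card : ℝ) := by linarith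
      exact_mod_cast this
    obtain ⟨x', hx', hne'⟩ := Finset.exists_mem_ne h2 x
    rw [Finset.mem_filter] at hx'
    obtain ⟨i, _, hi⟩ := hiso x (hP3P hx) x' hx'.1 y (hP3P hy) hx'.2.symm
      (fun e => hne' e.symm) hne
    exact hi (congrFun hxy i)
  have hP3c : (P.card : ℝ) ≤ 2 * P₃.card := by linarith
  have hP3n : P.card ≤ 2 * P₃.card := by exact_mod_cast hP3c
  have hsphere := sphere (v := v) (P := P₃) (ρ := ρ) (by omega) hinj (by
      have h1 := Nat.mul_le_mul_right (t.choose ρ) hP3n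
      have h2 := hsph.trans h1
      rw [mul_assoc 2] at h2
      change 2 * 2 ^ t ≤ P₃.card * t.choose ρ
      have h3 : 2 * (2 * 2 ^ t) ≤ 2 * (P₃.card * t.choose ρ) := by
        rw [← mul_assoc 2 2]
        exact h2
      exact Nat.le_of_mul_le_mul_left h3 (by norm_num)) W (by
      intro x hx y hy hne x' hx' hag
      by_contra hcon
      have hx'P : x' ∈ P := hVP _ hx'
      have hg : grp x' = grp x := (Finset.mem_filter.1 hx').2
      obtain ⟨i, hi1, hi2⟩ := hiso x (hP3P hx) x' hx'P y (hP3P hy) hg.symm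
        (fun e => hcon e.symm) hne
      exact hi1 (hag i (mem_df.2 hi2)).symm)
  have hs2 : (P₃.card : ℝ) ^ 2 * (t.choose (2 * ρ) : ℝ) ≤
      2 * 16 ^ ρ * 2 ^ t * ((∑ x ∈ P₃, NI v (W x) x (2 * ρ) : ℕ) : ℝ) := by
    exact_mod_cast hsphere
  have hC0 : (0 : ℝ) < (t.choose (2 * ρ) : ℝ) := by
    exact_mod_cast Nat.choose_pos (by omega : 2 * ρ ≤ t)
  have hs3 : (P₃.card : ℝ) ^ 2 ≤ 2 * 16 ^ ρ * 2 ^ t * (Γ.card * (K / φ)) := by
    refine le_of_mul_le_mul_right ?_ hC0
    calc (P₃.card : ℝ) ^ 2 * (t.choose (2 * ρ) : ℝ)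
        ≤ 2 * 16 ^ ρ * 2 ^ t * ((∑ x ∈ P₃, NI v (W x) x (2 * ρ) : ℕ) : ℝ) := hs2
      _ ≤ 2 * 16 ^ ρ * 2 ^ t * (Γ.card * ((t.choose (2 * ρ) : ℝ) * (K / φ))) :=
          mul_le_mul_of_nonneg_left hNI (by positivity)
      _ = _ := by ring
  have hPpos : (0 : ℝ) < P.card := by
    have : 0 < P.card := by
      rcases Nat.eq_zero_or_pos P.card with h0 | h0
      · rw [h0, zero_mul] at hsph
        have : 0 < 4 * 2 ^ t := by positivity
        omega
      · exact h0
    exact_mod_cast this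
  have hP2c : (P₂.card : ℝ) ≤ P.card := by
    have : P₂.card ≤ P.card := Finset.card_le_card fun x hx =>
      (Finset.mem_sdiff.1 (Finset.mem_filter.1 hx).1).1
    exact_mod_cast this
  have hG0 : 0 < G := by linarith
  have hΓ2 : (Γ.card : ℝ) * G ≤ 2 * P.card := by linarith
  have h10 : (P.card : ℝ) ^ 2 ≤ 4 * (P₃.card : ℝ) ^ 2 := by
    have h13 := pow_le_pow_left₀ hPpos.le hP3c 2
    rw [mul_pow] at h13
    norm_num at h13
    exact h13
  have hA : (0 : ℝ) ≤ 16 ^ ρ * 2 ^ t := by positivity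
  have hs4 : (P₃.card : ℝ) ^ 2 ≤ 2 * (16 ^ ρ * 2 ^ t) * (Γ.card * (K / φ)) := by
    rw [← mul_assoc 2 ((16 : ℝ) ^ ρ) (2 ^ t)]
    exact hs3
  have h14 := st_arith hPpos hG0 hφ hK0 hA hs4 hΓ2 h10
  rw [← mul_assoc 16] at h14
  exact h14

end Pool.Agent.Lib.MP_fa373d_co.SE
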